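import Mathlib

/-!
# Isometries of hermitian forms with a hyperbolic plane
-/

set_option autoImplicit false
set_option linter.unusedSectionVars false
set_option linter.unusedSimpArgs false

namespace Pool.Agent.R933.Un

/-- the indices: `none` and `some none` for the hyperbolic plane -/
abbrev Ix (ι : Type) : Type := Option (Option ι)

section ring

variable {ι S : Type} [Fintype ι] [DecidableEq ι] [CommRing S]

/-- the form on the small space -/
def h0 (σ : S →+* S) (b : Matrix ι ι S) (w y : ι → S) : S := ∑ i, ∑ j, σ (w i) * b i j * y j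

/-- hermitian data -/
structure Herm (σ : S →+* S) (b : Matrix ι ι S) : Prop where
  inv : ∀ x, σ (σ x) = x
  sym : ∀ i j, σ (b i j) = b j i

variable {σ : S →+* S} {b : Matrix ι ι S}

theorem h0_add_right (w y y' : ι → S) :
    h0 σ b w (fun i => y i + y' i) = h0 σ b w y + h0 σ b w y' := by
  unfold h0
  rw [← Finset.sum_add_distrib]
  apply Finset.sum_congr rfl
  intro i _
  rw [← Finset.sum_add_distrib]
  apply Finset.sum_congr rfl
  intro j _
  ring

theorem h0_add_left (w w' y : ι → S) :
    h0 σ b (fun i => w i + w' i) y = h0 σ b w y + h0 σ b w' y := by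
  unfold h0
  rw [← Finset.sum_add_distrib]
  apply Finset.sum_congr rfl
  intro i _
  rw [← Finset.sum_add_distrib]
  apply Finset.sum_congr rfl
  intro j _
  rw [map_add]
  ring

theorem h0_smul_right (w y : ι → S) (c : S) :
    h0 σ b w (fun i => y i * c) = h0 σ b w y * c := by
  unfold h0
  rw [Finset.sum_mul]
  apply Finset.sum_congr rfl
  intro i _
  rw [Finset.sum_mul]
  apply Finset.sum_congr rfl
  intro j _
  ring

theorem h0_smul_left (w y : ι → S) (c : S) :
    h0 σ b (fun i => w i * c) y = σ c * h0 σ b w y := by
  unfold h0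
  rw [Finset.mul_sum]
  apply Finset.sum_congr rfl
  intro i _
  rw [Finset.mul_sum]
  apply Finset.sum_congr rfl
  intro j _
  rw [map_mul]
  ring

theorem h0_neg_left (w y : ι → S) : h0 σ b (fun i => - w i) y = - h0 σ b w y := by
  have h := h0_smul_left (σ := σ) (b := b) w y (-1)
  rw [map_neg, map_one, neg_one_mul] at h
  rw [← h]
  congr 1
  funext i
  ring

theorem h0_symm (h : Herm σ b) (w y : ι → S) : σ (h0 σ b w y) = h0 σ b y w := by
  unfold h0
  rw [map_sum, Finset.sum_comm]
  apply Finset.sum_congr rfl
  intro i _
  rw [map_sum]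
  apply Finset.sum_congr rfl
  intro j _
  rw [map_mul, map_mul, h.inv, h.sym]
  ring

theorem h0_zero_left (y : ι → S) : h0 σ b (fun _ => 0) y = 0 := by
  unfold h0
  simp

theorem h0_zero_right (y : ι → S) : h0 σ b y (fun _ => 0) = 0 := by
  unfold h0
  simp

/-- the Gram matrix -/
def Hm (b : Matrix ι ι S) : Matrix (Ix ι) (Ix ι) S := fun i j =>
  match i, j with
  | none, some none => 1
  | some none, none => 1
  | some (some i), some (some j) => b i j
  | _, _ => 0

/-- the form -/
def hf (σ : S →+* S) (b : Matrix ι ι S) (v w : Ix ι → S) : S :=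
  σ (v none) * w (some none) + σ (v (some none)) * w none +
    h0 σ b (fun i => v (some (some i))) (fun i => w (some (some i)))

theorem hf_eq (v w : Ix ι → S) :
    hf σ b v w = dotProduct (fun i => σ (v i)) ((Hm b).mulVec w) := by
  unfold hf dotProduct Matrix.mulVec dotProduct
  rw [Fintype.sum_option, Fintype.sum_option]
  simp only [Fintype.sum_option, Hm, zero_mul, one_mul, zero_add, add_zero, Finset.sum_const_zero]
  rw [← add_assoc]
  congr 1
  unfold h0
  apply Finset.sum_congr rfl
  intro i _
  rw [Finset.mul_sum]
  apply Finset.sum_congr rfl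
  intro j _
  ring

theorem hf_single (i j : Ix ι) : hf σ b (Pi.single i 1) (Pi.single j 1) = Hm b i j := by
  rw [hf_eq]
  have h1 : (fun l => σ ((Pi.single i 1 : Ix ι → S) l)) = Pi.single i 1 := by
    funext l
    simp only [Pi.single_apply]
    split_ifs
    · exact map_one σ
    · exact map_zero σ
  rw [h1, Matrix.mulVec_single_one, single_one_dotProduct]
  rfl

/-- the group of isometries -/
def UG (σ : S →+* S) (b : Matrix ι ι S) : Subgroup (Matrix (Ix ι) (Ix ι) S)ˣ where
  carrier := {g | (g.val.map σ).transpose * Hm b * g.val = Hm b}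
  one_mem' := by
    show ((1 : Matrix (Ix ι) (Ix ι) S).map σ).transpose * Hm b * (1 : Matrix (Ix ι) (Ix ι) S) = Hm b
    rw [Matrix.map_one σ (map_zero σ) (map_one σ), Matrix.transpose_one, one_mul, mul_one]
  mul_mem' := by
    intro g h hg hh
    show ((g.val * h.val).map σ).transpose * Hm b * (g.val * h.val) = Hm b
    rw [Matrix.map_mul, Matrix.transpose_mul]
    calc (h.val.map σ).transpose * (g.val.map σ).transpose * Hm b * (g.val * h.val)
        = (h.val.map σ).transpose * ((g.val.map σ).transpose * Hm b * g.val) * h.val := by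
          simp only [mul_assoc]
      _ = Hm b := by
        rw [show (g.val.map σ).transpose * Hm b * g.val = Hm b from hg]
        exact hh
  inv_mem' := by
    intro g hg
    have h1 : (g.val.map σ).transpose * Hm b * g.val = Hm b := hg
    show ((g⁻¹.val).map σ).transpose * Hm b * g⁻¹.val = Hm b
    have h2 : ((g⁻¹.val).map σ).transpose * (g.val.map σ).transpose = 1 := by
      rw [← Matrix.transpose_mul, ← Matrix.map_mul, Units.mul_inv,
        Matrix.map_one σ (map_zero σ) (map_one σ), Matrix.transpose_one]
    calc ((g⁻¹.val).map σ).transpose * Hm b * g⁻¹.val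
        = ((g⁻¹.val).map σ).transpose * ((g.val.map σ).transpose * Hm b * g.val) * g⁻¹.val := by
          rw [h1]
      _ = (((g⁻¹.val).map σ).transpose * (g.val.map σ).transpose) * Hm b * (g.val * g⁻¹.val) := by
          simp only [mul_assoc]
      _ = Hm b := by rw [h2, Units.mul_inv, one_mul, mul_one]

theorem hf_mulVec (A : Matrix (Ix ι) (Ix ι) S) (v w : Ix ι → S) :
    hf σ b (A.mulVec v) (A.mulVec w) = dotProduct (fun i => σ (v i))
      (((A.map σ).transpose * Hm b * A).mulVec w) := by
  rw [hf_eq]
  have h1 : (fun i => σ (A.mulVec v i)) = (A.map σ).mulVec (fun i => σ (v i)) := by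
    funext i
    rw [Matrix.mulVec, Matrix.mulVec, dotProduct, dotProduct, map_sum]
    apply Finset.sum_congr rfl
    intro j _
    rw [map_mul]
    rfl
  rw [h1, ← Matrix.mulVec_mulVec, ← Matrix.mulVec_mulVec, ← Matrix.vecMul_transpose,
    Matrix.dotProduct_mulVec, Matrix.dotProduct_mulVec, Matrix.dotProduct_mulVec,
    Matrix.dotProduct_mulVec]
  exact (Matrix.dotProduct_mulVec _ _ _).symm

theorem hf_isom {g : (Matrix (Ix ι) (Ix ι) S)ˣ} (hg : g ∈ UG σ b) (v w : Ix ι → S) :
    hf σ b (g.val.mulVec v) (g.val.mulVec w) = hf σ b v w := by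
  rw [hf_mulVec, show (g.val.map σ).transpose * Hm b * g.val = Hm b from hg, hf_eq]

theorem mem_UG {g : (Matrix (Ix ι) (Ix ι) S)ˣ}
    (hg : ∀ v w, hf σ b (g.val.mulVec v) (g.val.mulVec w) = hf σ b v w) : g ∈ UG σ b := by
  show (g.val.map σ).transpose * Hm b * g.val = Hm b
  ext i j
  have h1 := hg (Pi.single i 1) (Pi.single j 1)
  rw [hf_mulVec, hf_single] at h1
  rw [← h1]
  have h2 : (fun l => σ ((Pi.single i 1 : Ix ι → S) l)) = Pi.single i 1 := by
    funext l
    simp only [Pi.single_apply]
    split_ifs
    · exact map_one σ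
    · exact map_zero σ
  rw [h2, Matrix.mulVec_single_one, single_one_dotProduct]
  rfl

/-- columns -/
theorem hf_col {g : (Matrix (Ix ι) (Ix ι) S)ˣ} (hg : g ∈ UG σ b) (j l : Ix ι) :
    hf σ b (fun i => g.val i j) (fun i => g.val i l) = Hm b j l := by
  have h1 := hf_isom hg (Pi.single j 1) (Pi.single l 1)
  rw [hf_single, Matrix.mulVec_single_one, Matrix.mulVec_single_one] at h1
  exact h1

/-- the Eichler transformations -/
def LL (σ : S →+* S) (b : Matrix ι ι S) (w : ι → S) (z : S) :
    (Ix ι → S) →ₗ[S] (Ix ι → S) where
  toFun v := fun i => match i with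
    | none => v none - h0 σ b w (fun i => v (some (some i))) + z * v (some none)
    | some none => v (some none)
    | some (some i) => v (some (some i)) + w i * v (some none)
  map_add' v v' := by
    funext i
    match i with
    | none =>
      show (v + v') none - h0 σ b w (fun i => (v + v') (some (some i))) +
        z * (v + v') (some none) = v none - h0 σ b w (fun i => v (some (some i))) +
        z * v (some none) + (v' none - h0 σ b w (fun i => v' (some (some i))) +
        z * v' (some none))
      have := h0_add_right (σ := σ) (b := b) w (fun i => v (some (some i)))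
        (fun i => v' (some (some i)))
      simp only [Pi.add_apply]
      rw [this]
      ring
    | some none => rfl
    | some (some i) =>
      show (v + v') (some (some i)) + w i * (v + v') (some none) =
        v (some (some i)) + w i * v (some none) + (v' (some (some i)) + w i * v' (some none))
      simp only [Pi.add_apply]
      ring
  map_smul' c v := by
    funext i
    match i with
    | none =>
      show (c • v) none - h0 σ b w (fun i => (c • v) (some (some i))) + z * (c • v) (some none) =
        c * (v none - h0 σ b w (fun i => v (some (some i))) + z * v (some none))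
      have := h0_smul_right (σ := σ) (b := b) w (fun i => v (some (some i))) c
      simp only [Pi.smul_apply, smul_eq_mul]
      have e : (fun i => c * v (some (some i))) = fun i => v (some (some i)) * c := by
        funext i
        ring
      rw [e, this]
      ring
    | some none => rfl
    | some (some i) =>
      show (c • v) (some (some i)) + w i * (c • v) (some none) =
        c * (v (some (some i)) + w i * v (some none))
      simp only [Pi.smul_apply, smul_eq_mul]
      ring

theorem LL_e (w : ι → S) (z : S) (v : Ix ι → S) : LL σ b w z v none =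
    v none - h0 σ b w (fun i => v (some (some i))) + z * v (some none) := rfl
theorem LL_f (w : ι → S) (z : S) (v : Ix ι → S) : LL σ b w z v (some none) = v (some none) := rfl
theorem LL_y (w : ι → S) (z : S) (v : Ix ι → S) (i : ι) : LL σ b w z v (some (some i)) =
    v (some (some i)) + w i * v (some none) := rfl

theorem ext_v {v w : Ix ι → S} (he : v none = w none) (hf : v (some none) = w (some none))
    (hy : ∀ i, v (some (some i)) = w (some (some i))) : v = w := by
  funext i
  match i with
  | none => exact he
  | some none => exact hf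
  | some (some i) => exact hy i

theorem LL_comp (w1 w2 : ι → S) (z1 z2 : S) (v : Ix ι → S) :
    LL σ b w1 z1 (LL σ b w2 z2 v) = LL σ b (fun i => w1 i + w2 i) (z1 + z2 - h0 σ b w1 w2) v := by
  apply ext_v
  · rw [LL_e, LL_e, LL_f, LL_e, h0_add_left]
    have h1 := h0_add_right (σ := σ) (b := b) w1 (fun i => v (some (some i)))
      (fun i => w2 i * v (some none))
    have h2 := h0_smul_right (σ := σ) (b := b) w1 w2 (v (some none))
    rw [h2] at h1
    have h3 : (fun i => LL σ b w2 z2 v (some (some i))) =
        fun i => v (some (some i)) + w2 i * v (some none) := rfl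
    rw [h3, h1]
    ring
  · rw [LL_f, LL_f, LL_f]
  · intro i
    rw [LL_y, LL_y, LL_f, LL_y]
    ring

theorem LL_zero (v : Ix ι → S) : LL σ b (fun _ => 0) 0 v = v := by
  apply ext_v
  · rw [LL_e, h0_zero_left]
    ring
  · rw [LL_f]
  · intro i
    rw [LL_y]
    ring

/-- the Eichler matrices -/
noncomputable def EM (σ : S →+* S) (b : Matrix ι ι S) (w : ι → S) (z : S) :
    Matrix (Ix ι) (Ix ι) S := LinearMap.toMatrix' (LL σ b w z)

theorem EM_mulVec (w : ι → S) (z : S) (v : Ix ι → S) :
    (EM σ b w z).mulVec v = LL σ b w z v := LinearMap.toMatrix'_mulVec _ _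

theorem mat_ext {A B : Matrix (Ix ι) (Ix ι) S} (h : ∀ v, A.mulVec v = B.mulVec v) : A = B := by
  ext i j
  have h1 := congrFun (h (Pi.single j 1)) i
  rwa [Matrix.mulVec_single_one, Matrix.mulVec_single_one] at h1

theorem EM_mul (w1 w2 : ι → S) (z1 z2 : S) :
    EM σ b w1 z1 * EM σ b w2 z2 = EM σ b (fun i => w1 i + w2 i) (z1 + z2 - h0 σ b w1 w2) := by
  apply mat_ext
  intro v
  rw [← Matrix.mulVec_mulVec, EM_mulVec, EM_mulVec, EM_mulVec, LL_comp]

theorem EM_one : EM σ b (fun _ => 0) 0 = 1 := by
  apply mat_ext
  intro v
  rw [EM_mulVec, LL_zero, Matrix.one_mulVec]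

/-- the condition for the Eichler transformations -/
def Cd (σ : S →+* S) (b : Matrix ι ι S) (w : ι → S) (z : S) : Prop := z + σ z + h0 σ b w w = 0

/-- the Eichler transformations -/
noncomputable def Ei (_h : Herm σ b) (w : ι → S) (z : S) (hz : Cd σ b w z) :
    (Matrix (Ix ι) (Ix ι) S)ˣ where
  val := EM σ b w z
  inv := EM σ b (fun i => - w i) (σ z)
  val_inv := by
    rw [EM_mul, ← EM_one (σ := σ) (b := b)]
    have h1 : h0 σ b w (fun i => - w i) = - h0 σ b w w := by
      have h2 := h0_smul_right (σ := σ) (b := b) w w (-1)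
      rw [show (fun i => w i * -1) = fun i => - w i by funext i; ring] at h2
      rw [h2]
      ring
    rw [h1]
    congr 1
    · funext i
      ring
    · have := hz
      unfold Cd at this
      linear_combination this
  inv_val := by
    rw [EM_mul, ← EM_one (σ := σ) (b := b), h0_neg_left]
    congr 1
    · funext i
      ring
    · have := hz
      unfold Cd at this
      linear_combination this

theorem Ei_val (h : Herm σ b) (w : ι → S) (z : S) (hz : Cd σ b w z) :
    (Ei h w z hz).val = EM σ b w z := rfl

theorem Ei_mem (h : Herm σ b) (w : ι → S) (z : S) (hz : Cd σ b w z) :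
    Ei h w z hz ∈ UG σ b := by
  apply mem_UG
  intro v v'
  rw [Ei_val, EM_mulVec, EM_mulVec]
  unfold hf
  rw [LL_e, LL_e, LL_f, LL_f]
  have e1 : (fun i => LL σ b w z v (some (some i))) =
      fun i => v (some (some i)) + w i * v (some none) := rfl
  have e2 : (fun i => LL σ b w z v' (some (some i))) =
      fun i => v' (some (some i)) + w i * v' (some none) := rfl
  rw [e1, e2]
  have h1 := h0_add_left (σ := σ) (b := b) (fun i => v (some (some i)))
    (fun i => w i * v (some none)) (fun i => v' (some (some i)) + w i * v' (some none))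
  have h2 := h0_add_right (σ := σ) (b := b) (fun i => v (some (some i)))
    (fun i => v' (some (some i))) (fun i => w i * v' (some none))
  have h3 := h0_smul_right (σ := σ) (b := b) (fun i => v (some (some i))) w (v' (some none))
  have h4 := h0_smul_left (σ := σ) (b := b) w
    (fun i => v' (some (some i)) + w i * v' (some none)) (v (some none))
  have h5 := h0_add_right (σ := σ) (b := b) w
    (fun i => v' (some (some i))) (fun i => w i * v' (some none))
  have h6 := h0_smul_right (σ := σ) (b := b) w w (v' (some none))
  have h7 := h0_symm h w (fun i => v (some (some i)))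
  rw [h1, h2, h3, h4, h5, h6, map_add, map_sub, map_mul, h7]
  have h8 := hz
  unfold Cd at h8
  linear_combination σ (v (some none)) * v' (some none) * h8

theorem Ei_mul (h : Herm σ b) (w1 w2 : ι → S) (z1 z2 : S) (h1 : Cd σ b w1 z1)
    (h2 : Cd σ b w2 z2) (h3 : Cd σ b (fun i => w1 i + w2 i) (z1 + z2 - h0 σ b w1 w2)) :
    Ei h w1 z1 h1 * Ei h w2 z2 h2 = Ei h (fun i => w1 i + w2 i) (z1 + z2 - h0 σ b w1 w2) h3 := by
  apply Units.ext
  exact EM_mul w1 w2 z1 z2

theorem EM_col_f (w : ι → S) (z : S) : EM σ b w z none (some none) = z ∧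
    EM σ b w z (some none) (some none) = 1 ∧
    ∀ i, EM σ b w z (some (some i)) (some none) = w i := by
  have h1 : ∀ l, EM σ b w z l (some none) = LL σ b w z (Pi.single (some none) 1) l := by
    intro l
    rw [← EM_mulVec, Matrix.mulVec_single_one]
    rfl
  refine ⟨?_, ?_, ?_⟩
  · rw [h1, LL_e]
    have : (fun i : ι => (Pi.single (some none) 1 : Ix ι → S) (some (some i))) = fun _ => 0 := by
      funext i
      simp
    rw [this, h0_zero_right]
    simp
  · rw [h1, LL_f]
    simp
  · intro i
    rw [h1, LL_y]
    simp

theorem EM_col_e (w : ι → S) (z : S) : EM σ b w z none none = 1 ∧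
    EM σ b w z (some none) none = 0 ∧ ∀ i, EM σ b w z (some (some i)) none = 0 := by
  have h1 : ∀ l, EM σ b w z l none = LL σ b w z (Pi.single none 1) l := by
    intro l
    rw [← EM_mulVec, Matrix.mulVec_single_one]
    rfl
  refine ⟨?_, ?_, ?_⟩
  · rw [h1, LL_e]
    have : (fun i : ι => (Pi.single none 1 : Ix ι → S) (some (some i))) = fun _ => 0 := by
      funext i
      simp
    rw [this, h0_zero_right]
    simp
  · rw [h1, LL_f]
    simp
  · intro i
    rw [h1, LL_y]
    simp

/-- the swap of the hyperbolic plane -/
def WL (ι S : Type) [Fintype ι] [DecidableEq ι] [CommRing S] :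
    (Ix ι → S) →ₗ[S] (Ix ι → S) where
  toFun v := fun i => match i with
    | none => v (some none)
    | some none => v none
    | some (some i) => v (some (some i))
  map_add' v v' := by
    funext i
    match i with
    | none => rfl
    | some none => rfl
    | some (some i) => rfl
  map_smul' c v := by
    funext i
    match i with
    | none => rfl
    | some none => rfl
    | some (some i) => rfl

/-- the swap -/
noncomputable def Ww (ι S : Type) [Fintype ι] [DecidableEq ι] [CommRing S] :
    (Matrix (Ix ι) (Ix ι) S)ˣ where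
  val := LinearMap.toMatrix' (WL ι S)
  inv := LinearMap.toMatrix' (WL ι S)
  val_inv := by
    apply mat_ext
    intro v
    rw [← Matrix.mulVec_mulVec, LinearMap.toMatrix'_mulVec, LinearMap.toMatrix'_mulVec,
      Matrix.one_mulVec]
    exact ext_v rfl rfl (fun _ => rfl)
  inv_val := by
    apply mat_ext
    intro v
    rw [← Matrix.mulVec_mulVec, LinearMap.toMatrix'_mulVec, LinearMap.toMatrix'_mulVec,
      Matrix.one_mulVec]
    exact ext_v rfl rfl (fun _ => rfl)

theorem Ww_mulVec (v : Ix ι → S) : (Ww ι S).val.mulVec v = WL ι S v :=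
  LinearMap.toMatrix'_mulVec _ _

theorem Ww_mem : Ww ι S ∈ UG σ b := by
  apply mem_UG
  intro v w
  rw [Ww_mulVec, Ww_mulVec]
  show σ (v (some none)) * w none + σ (v none) * w (some none) + h0 σ b
    (fun i => v (some (some i))) (fun i => w (some (some i))) = _
  unfold hf
  ring

end ring

section map

variable {ι S S' : Type} [Fintype ι] [DecidableEq ι] [CommRing S] [CommRing S']

/-- the entrywise image -/
def mp (φ : S →+* S') : (Matrix (Ix ι) (Ix ι) S)ˣ →* (Matrix (Ix ι) (Ix ι) S')ˣ :=
  Units.map (φ.mapMatrix : Matrix (Ix ι) (Ix ι) S →+* Matrix (Ix ι) (Ix ι) S').toMonoidHom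

theorem mp_val (φ : S →+* S') (g : (Matrix (Ix ι) (Ix ι) S)ˣ) (i j : Ix ι) :
    (mp φ g).val i j = φ (g.val i j) := rfl

theorem Hm_map (φ : S →+* S') (b : Matrix ι ι S) : (Hm b).map φ = Hm (b.map φ) := by
  ext i j
  match i, j with
  | none, none => exact map_zero φ
  | none, some none => exact map_one φ
  | none, some (some j) => exact map_zero φ
  | some none, none => exact map_one φ
  | some none, some none => exact map_zero φ
  | some none, some (some j) => exact map_zero φ
  | some (some i), none => exact map_zero φ
  | some (some i), some none => exact map_zero φ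
  | some (some i), some (some j) => rfl

theorem mp_mem (φ : S →+* S') {σ : S →+* S} {σ' : S' →+* S'} {b : Matrix ι ι S}
    {b' : Matrix ι ι S'} (h1 : ∀ x, φ (σ x) = σ' (φ x)) (h2 : b.map φ = b')
    {g : (Matrix (Ix ι) (Ix ι) S)ˣ} (hg : g ∈ UG σ b) : mp φ g ∈ UG σ' b' := by
  have h3 : (g.val.map σ).transpose * Hm b * g.val = Hm b := hg
  have h4 := congrArg (fun A : Matrix (Ix ι) (Ix ι) S => A.map φ) h3
  change ((g.val.map σ).transpose * Hm b * g.val).map φ = (Hm b).map φ at h4
  rw [Matrix.map_mul, Matrix.map_mul, Hm_map, h2] at h4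
  show (((mp φ g).val).map σ').transpose * Hm b' * (mp φ g).val = Hm b'
  rw [← h4]
  congr 2
  ext i j
  show σ' (φ (g.val j i)) = φ (σ (g.val j i))
  rw [h1]

end map

end Pool.Agent.R933.Un
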