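import Pool.Agent.R933.Un.Pol
import Pool.Agent.R933.FJ.Cor

/-!
# The kernel of the evaluation at zero is a free product
-/

set_option autoImplicit false
set_option linter.unusedSectionVars false
set_option linter.unusedSimpArgs false

namespace Pool.Agent.R933.Un

open Polynomial Pool.Agent.Y110.FJ Pool.Agent.R933.FJ

/-- column vectors -/
def Vc (ι S : Type) : Type := Ix ι → S

instance {ι S : Type} [Fintype ι] [DecidableEq ι] [CommRing S] :
    MulAction (Matrix (Ix ι) (Ix ι) S)ˣ (Vc ι S) where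
  smul g v := g.val.mulVec v
  one_smul v := Matrix.one_mulVec v
  mul_smul g h v := (Matrix.mulVec_mulVec v g.val h.val).symm

theorem vsmul {ι S : Type} [Fintype ι] [DecidableEq ι] [CommRing S]
    (g : (Matrix (Ix ι) (Ix ι) S)ˣ) (v : Vc ι S) : g • v = g.val.mulVec v := rfl

section fre

variable {ι K : Type} [Fintype ι] [DecidableEq ι] [Field K] {σ : K →+* K} {b : Matrix ι ι K}

/-- the isometries over the field -/
abbrev GK (σ : K →+* K) (b : Matrix ι ι K) : Type := ↥(UG σ b)

/-- the isometries over the polynomials -/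
abbrev GT (σ : K →+* K) (b : Matrix ι ι K) : Type := ↥(UG (sT σ) (bT b))

/-- evaluation at zero -/
noncomputable def ev (σ : K →+* K) (b : Matrix ι ι K) : GT σ b →* GK σ b :=
  ((mp (Polynomial.constantCoeff : K[X] →+* K)).comp (UG (sT σ) (bT b)).subtype).codRestrict
    (UG σ b) (fun g => mp_mem _ (fun p => sT_coeff p 0) (by
      ext i j
      exact coeff_C_zero) g.2)

/-- constant isometries -/
noncomputable def sH (σ : K →+* K) (b : Matrix ι ι K) : GK σ b →* GT σ b :=
  ((mp (C : K →+* K[X])).comp (UG σ b).subtype).codRestrict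
    (UG (sT σ) (bT b)) (fun g => mp_mem _ (fun a => (sT_C a).symm) rfl g.2)

theorem ev_val (g : GT σ b) (i j : Ix ι) : (ev σ b g).1.val i j = (g.1.val i j).coeff 0 := rfl

theorem sH_val (g : GK σ b) (i j : Ix ι) : (sH σ b g).1.val i j = C (g.1.val i j) := rfl

theorem gk_ext {g h : GK σ b} (hgh : ∀ i j, g.1.val i j = h.1.val i j) : g = h := by
  apply Subtype.ext
  apply Units.ext
  ext i j
  exact hgh i j

theorem gt_ext {g h : GT σ b} (hgh : ∀ i j, g.1.val i j = h.1.val i j) : g = h := by
  apply Subtype.ext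
  apply Units.ext
  exact Matrix.ext hgh

theorem ev_sH (q : GK σ b) : ev σ b (sH σ b q) = q := by
  apply gk_ext
  intro i j
  rw [ev_val, sH_val, coeff_C_zero]

theorem sH_of_const {g : GT σ b} (hg : ∀ i j, g.1.val i j = C ((g.1.val i j).coeff 0)) :
    sH σ b (ev σ b g) = g := by
  apply gt_ext
  intro i j
  rw [sH_val, ev_val]
  exact (hg i j).symm

theorem mul_col {S : Type} [CommRing S] (A B : Matrix (Ix ι) (Ix ι) S)
    (hB : ∀ m, m ≠ none → B m none = 0) (l : Ix ι) :
    (A * B) l none = A l none * B none none := by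
  rw [Matrix.mul_apply]
  apply Finset.sum_eq_single none
  · intro m _ hm
    rw [hB m hm, mul_zero]
  · intro h
    exact absurd (Finset.mem_univ _) h

/-- the stabilizer of the line of `e` -/
def Pp (σ : K →+* K) (b : Matrix ι ι K) : Subgroup (GK σ b) where
  carrier := {q | ∀ l, l ≠ none → q.1.val l none = 0}
  one_mem' := by
    intro l hl
    show (1 : Matrix (Ix ι) (Ix ι) K) l none = 0
    rw [Matrix.one_apply_ne hl]
  mul_mem' := by
    intro g h hg hh l hl
    show (g.1.val * h.1.val) l none = 0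
    rw [mul_col _ _ hh, hg l hl, zero_mul]
  inv_mem' := by
    intro g hg l hl
    have h1 : ∀ l, (g.1⁻¹).val l none * g.1.val none none =
        (1 : Matrix (Ix ι) (Ix ι) K) l none := by
      intro l
      rw [← mul_col (g.1⁻¹).val g.1.val hg, ← Units.val_mul, inv_mul_cancel, Units.val_one]
    have h2 := h1 none
    rw [Matrix.one_apply_eq] at h2
    have h3 := h1 l
    rw [Matrix.one_apply_ne hl] at h3
    show (g.1⁻¹).val l none = 0
    exact (mul_eq_zero.1 h3).resolve_right (right_ne_zero_of_mul_eq_one h2)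

theorem mem_Pp {q : GK σ b} : q ∈ Pp σ b ↔ ∀ l, l ≠ none → q.1.val l none = 0 := Iff.rfl

theorem pp_of_f (han : An σ b) {q : GK σ b} (hq : q.1.val (some none) none = 0) :
    q ∈ Pp σ b := by
  have hy : ∀ i, q.1.val (some (some i)) none = 0 := by
    apply han
    have h1 := hf_col q.2 none none
    unfold hf at h1
    beta_reduce at h1
    rw [hq, map_zero, mul_zero, zero_mul, zero_add, zero_add] at h1
    exact h1
  intro l hl
  match l with
  | none => exact absurd rfl hl
  | some none => exact hq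
  | some (some i) => exact hy i

theorem pp_ee {q : GK σ b} (hq : q ∈ Pp σ b) : q.1.val none none ≠ 0 := by
  have h1 : (q.1⁻¹).val none none * q.1.val none none =
      (1 : Matrix (Ix ι) (Ix ι) K) none none := by
    rw [← mul_col (q.1⁻¹).val q.1.val hq, ← Units.val_mul, inv_mul_cancel, Units.val_one]
  rw [Matrix.one_apply_eq] at h1
  exact right_ne_zero_of_mul_eq_one h1

/-- the isotropic vector `h e` -/
noncomputable def cv (h : GK σ b) : Vc ι K[X] := fun l => C (h.1.val l none)

theorem smul_cv (q h : GK σ b) : sH σ b q • cv h = cv (q * h) := by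
  funext l
  show ∑ m, (sH σ b q).1.val l m * cv h m = C ((q.1.val * h.1.val) l none)
  rw [Matrix.mul_apply, map_sum]
  apply Finset.sum_congr rfl
  intro m _
  rw [sH_val, map_mul]
  rfl

theorem cv_mul {h p : GK σ b} (hp : p ∈ Pp σ b) :
    cv (h * p) = fun l => cv h l * C (p.1.val none none) := by
  funext l
  show C ((h.1.val * p.1.val) l none) = _
  rw [mul_col _ _ hp, map_mul]
  rfl

/-- the unipotent group of an isotropic line -/
noncomputable def Uh (h : GK σ b) : Subgroup (GT σ b) :=
  (ev σ b).ker ⊓ MulAction.stabilizer (GT σ b) (cv h)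

theorem mem_Uh {h : GK σ b} {x : GT σ b} : x ∈ Uh h ↔ ev σ b x = 1 ∧ x • cv h = cv h := Iff.rfl

theorem Uh_mul {h p : GK σ b} (hp : p ∈ Pp σ b) : Uh (h * p) = Uh h := by
  have hc : (C (p.1.val none none) : K[X]) ≠ 0 := by
    rw [Ne, C_eq_zero]
    exact pp_ee hp
  ext x
  rw [mem_Uh, mem_Uh]
  apply and_congr_right
  intro _
  have e1 : x • cv (h * p) = fun l => (x • cv h : Vc ι K[X]) l * C (p.1.val none none) := by
    rw [cv_mul hp]
    funext l
    show ∑ m, x.1.val l m * (cv h m * C (p.1.val none none)) =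
      (∑ m, x.1.val l m * cv h m) * C (p.1.val none none)
    rw [Finset.sum_mul]
    apply Finset.sum_congr rfl
    intro m _
    ring
  rw [e1, cv_mul hp]
  constructor
  · intro h1
    funext l
    exact mul_right_cancel₀ hc (congrFun h1 l)
  · intro h1
    rw [h1]

/-- the isotropic lines -/
abbrev Lns (σ : K →+* K) (b : Matrix ι ι K) : Type := GK σ b ⧸ Pp σ b

/-- the unipotent groups -/
noncomputable def Ui (i : Lns σ b) : Subgroup (GT σ b) := Uh i.out

theorem Ui_mk (h : GK σ b) : Ui (QuotientGroup.mk h : Lns σ b) = Uh h := by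
  unfold Ui
  obtain ⟨p, hp⟩ := QuotientGroup.mk_out_eq_mul (Pp σ b) h
  rw [hp]
  exact Uh_mul p.2

theorem Ui_conj (q : GK σ b) (i : Lns σ b) (x : GT σ b) :
    x ∈ Ui i ↔ sH σ b q * x * (sH σ b q)⁻¹ ∈ Ui (q • i) := by
  induction i using QuotientGroup.induction_on with
  | H h =>
    rw [Ui_mk, show q • (QuotientGroup.mk h : Lns σ b) = QuotientGroup.mk (q * h) from rfl, Ui_mk,
      mem_Uh, mem_Uh, ← smul_cv, mul_smul, inv_smul_smul, mul_smul, map_mul, map_mul, map_inv,
      ev_sH, smul_left_cancel_iff]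
    apply and_congr_left
    intro _
    constructor
    · intro h1
      rw [h1, mul_one, mul_inv_cancel]
    · intro h1
      rw [mul_inv_eq_one] at h1
      exact mul_eq_left.1 h1

/-- **the unipotent group of the standard line** -/
theorem Uh_one (h : Herm σ b) (han : An σ b) {x : GT σ b} (hx : x ∈ Uh (1 : GK σ b)) :
    ∃ (w : ι → K[X]) (z : K[X]) (hz : Cd (sT σ) (bT b) w z), (∀ i, (w i).coeff 0 = 0) ∧
      z.coeff 0 = 0 ∧ x.1 = Ei (hermT h) w z hz := by
  obtain ⟨h1, h2⟩ := mem_Uh.1 hx
  have hone : ∀ i j, (x.1.val i j).coeff 0 = (1 : Matrix (Ix ι) (Ix ι) K) i j := by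
    intro i j
    rw [← ev_val, h1]
    rfl
  have hcv : cv (1 : GK σ b) = (Pi.single none 1 : Ix ι → K[X]) := by
    funext l
    show C ((1 : Matrix (Ix ι) (Ix ι) K) l none) = _
    rw [Matrix.one_apply, Pi.single_apply]
    split_ifs
    · exact C_1
    · exact C_0
  have hcol : ∀ l, x.1.val l none = (Pi.single none 1 : Ix ι → K[X]) l := by
    intro l
    have h3 : (x.1.val.mulVec (Pi.single none 1 : Ix ι → K[X])) l =
        (Pi.single none 1 : Ix ι → K[X]) l := by
      have h4 := congrFun h2 l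
      rw [hcv] at h4
      exact h4
    rw [Matrix.mulVec_single_one] at h3
    exact h3
  obtain ⟨w, z, hz, A, B, Y, e1, e2, e3, e4, e5, e6⟩ := base h han x.2 (by
    rw [hcol]
    simp)
  have hA : A = 1 := by
    have := hone none none
    rw [e2, coeff_C_zero, Matrix.one_apply_eq] at this
    exact this
  have hB : B = 1 := by
    have := hone (some none) (some none)
    rw [e3, coeff_C_zero, Matrix.one_apply_eq] at this
    exact this
  have hY : ∀ i j, Y i j = if i = j then 1 else 0 := by
    intro i j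
    have := hone (some (some i)) (some (some j))
    rw [e4, coeff_C_zero, Matrix.one_apply] at this
    rw [this]
    simp
  rw [hB, C_1] at e5 e6
  have hD : DD A B Y = (1 : Matrix (Ix ι) (Ix ι) K[X]) := by
    rw [hA, hB]
    refine Matrix.ext fun i j => ?_
    rw [Matrix.one_apply]
    match i, j with
    | none, none => simp [DD]
    | none, some none => simp [DD]
    | none, some (some j) => simp [DD]
    | some none, none => simp [DD]
    | some none, some none => simp [DD]
    | some none, some (some j) => simp [DD]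
    | some (some i), none => simp [DD]
    | some (some i), some none => simp [DD]
    | some (some i), some (some j) =>
      show C (Y i j) = _
      rw [hY]
      by_cases hij : i = j
      · simp [hij]
      · simp [hij]
  refine ⟨w, z, hz, ?_, ?_, ?_⟩
  · intro i
    have := hone (some (some i)) (some none)
    rw [e5, mul_one, Matrix.one_apply_ne (by simp)] at this
    exact this
  · have := hone none (some none)
    rw [e6, mul_one, Matrix.one_apply_ne (by simp)] at this
    exact this
  · have h3 : (Ei (hermT h) w z hz)⁻¹ * x.1 = 1 := by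
      apply Units.ext
      rw [e1, hD, Units.val_one]
    exact (inv_mul_eq_one.1 h3).symm

/-! ### ping-pong -/

/-- leading vectors -/
def Lead (v : Ix ι → K[X]) (d : ℕ) (c : Ix ι → K) : Prop :=
  ∀ l, (v l).natDegree ≤ d ∧ (v l).coeff d = c l

theorem lead_const {v : Ix ι → K[X]} {d : ℕ} {c : Ix ι → K} (hv : Lead v d c) (q : GK σ b) :
    Lead ((sH σ b q).1.val.mulVec v) d (q.1.val.mulVec c) := by
  intro l
  rw [Matrix.mulVec, Matrix.mulVec, dotProduct, dotProduct]
  constructor
  · apply natDegree_sum_le_of_forall_le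
    intro m _
    rw [sH_val]
    exact (natDegree_C_mul_le _ _).trans (hv m).1
  · rw [finsetSum_coeff]
    apply Finset.sum_congr rfl
    intro m _
    rw [sH_val, coeff_C_mul, (hv m).2]

theorem deg_wz (han : An σ b) {w : ι → K[X]} {z : K[X]} (hz : Cd (sT σ) (bT b) w z)
    (hw0 : ∀ i, (w i).coeff 0 = 0) (hz0 : z.coeff 0 = 0) (hne : ¬ ((∀ i, w i = 0) ∧ z = 0)) :
    z ≠ 0 ∧ ∃ m, m < z.natDegree ∧ ∀ i, (w i).natDegree ≤ m := by
  have hzne : z ≠ 0 := by
    rintro rfl
    apply hne
    refine ⟨?_, rfl⟩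
    apply anT han
    unfold Cd at hz
    rw [map_zero, zero_add, zero_add] at hz
    exact hz
  have hzd : 0 < z.natDegree := by
    rw [Nat.pos_iff_ne_zero]
    intro h0
    apply hzne
    rw [eq_C_of_natDegree_eq_zero h0, hz0, C_0]
  refine ⟨hzne, ?_⟩
  by_cases hw : ∃ i, w i ≠ 0
  · obtain ⟨D, hD, hc⟩ := exists_lead hw
    have hD0 : 0 < D := by
      rw [Nat.pos_iff_ne_zero]
      rintro rfl
      obtain ⟨i, hi⟩ := hc
      exact hi (hw0 i)
    refine ⟨D, ?_, hD⟩
    have h1 := h0_lead han hD hc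
    have h2 : h0 (sT σ) (bT b) w w = - (z + sT σ z) := by
      unfold Cd at hz
      linear_combination hz
    have h3 : D + D ≤ (h0 (sT σ) (bT b) w w).natDegree := le_natDegree_of_ne_zero h1
    rw [h2, natDegree_neg] at h3
    have h4 : (z + sT σ z).natDegree ≤ z.natDegree := by
      apply natDegree_add_le_of_degree_le le_rfl
      rw [sT_deg]
    omega
  · push Not at hw
    refine ⟨0, hzd, fun i => ?_⟩
    rw [hw i, natDegree_zero]

theorem lead_Ei (h : Herm σ b) (han : An σ b) {w : ι → K[X]} {z : K[X]}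
    (hz : Cd (sT σ) (bT b) w z) (hw0 : ∀ i, (w i).coeff 0 = 0) (hz0 : z.coeff 0 = 0)
    (hne : ¬ ((∀ i, w i = 0) ∧ z = 0)) {v : Ix ι → K[X]} {d : ℕ} {c : Ix ι → K}
    (hv : Lead v d c) :
    Lead ((Ei (hermT h) w z hz).val.mulVec v) (z.natDegree + d)
      (fun l => if l = none then z.leadingCoeff * c (some none) else 0) := by
  obtain ⟨hzne, m, hm, hwm⟩ := deg_wz han hz hw0 hz0 hne
  rw [Ei_val, EM_mulVec]
  have hsmall : ∀ l, (v l).coeff (z.natDegree + d) = 0 := fun l =>
    coeff_eq_zero_of_natDegree_lt (lt_of_le_of_lt (hv l).1 (by omega))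
  intro l
  match l with
  | none =>
    rw [LL_e]
    beta_reduce
    rw [if_pos rfl]
    have h1 := h0_deg (σ := σ) (b := b) hwm (fun i => (hv (some (some i))).1)
    constructor
    · apply natDegree_add_le_of_degree_le
      · refine (natDegree_sub_le _ _).trans (max_le ((hv none).1.trans (by omega)) ?_)
        exact h1.1.trans (by omega)
      · exact natDegree_mul_le_of_le le_rfl (hv _).1
    · rw [coeff_add, coeff_sub, hsmall, coeff_mul_add_eq_of_natDegree_le le_rfl (hv _).1,
        (hv _).2, coeff_eq_zero_of_natDegree_lt (lt_of_le_of_lt h1.1 (by omega)), sub_zero, zero_add]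
      rfl
  | some none =>
    rw [LL_f]
    beta_reduce
    rw [if_neg (Option.some_ne_none _)]
    exact ⟨(hv _).1.trans (by omega), hsmall _⟩
  | some (some i) =>
    rw [LL_y]
    beta_reduce
    rw [if_neg (Option.some_ne_none _)]
    have h2 : (w i * v (some none)).natDegree ≤ m + d := natDegree_mul_le_of_le (hwm i) (hv _).1
    constructor
    · apply natDegree_add_le_of_degree_le
      · exact (hv _).1.trans (by omega)
      · exact h2.trans (by omega)
    · rw [coeff_add, hsmall, zero_add]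
      exact coeff_eq_zero_of_natDegree_lt (lt_of_le_of_lt h2 (by omega))

/-- vectors with leading vector in a given isotropic line -/
def XI (i : Lns σ b) : Set (Vc ι K[X]) :=
  {v | ∃ (d : ℕ) (a : K), a ≠ 0 ∧ Lead v d (fun l => a * i.out.1.val l none)}

theorem col_ne (h : GK σ b) {a : K} (ha : a ≠ 0) : ∃ l, a * h.1.val l none ≠ 0 := by
  by_contra h0
  push Not at h0
  have h1 : ∀ l, h.1.val l none = 0 := fun l => (mul_eq_zero.1 (h0 l)).resolve_left ha
  have h2 : ((h.1⁻¹).val * h.1.val) none none = 1 := by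
    rw [← Units.val_mul, inv_mul_cancel, Units.val_one, Matrix.one_apply_eq]
  rw [Matrix.mul_apply, Finset.sum_eq_zero] at h2
  · exact zero_ne_one h2
  · intro l _
    rw [h1, mul_zero]

theorem lead_deg {v : Ix ι → K[X]} {d d' : ℕ} {c c' : Ix ι → K} (hc : ∃ l, c l ≠ 0)
    (h : Lead v d c) (h' : Lead v d' c') : d ≤ d' := by
  by_contra hlt
  rw [not_le] at hlt
  obtain ⟨l, hl⟩ := hc
  apply hl
  rw [← (h l).2]
  exact coeff_eq_zero_of_natDegree_lt (lt_of_le_of_lt (h' l).1 hlt)

theorem XI_disj (i j : Lns σ b) (hij : i ≠ j) : Disjoint (XI i) (XI j) := by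
  rw [Set.disjoint_left]
  rintro v ⟨d, a, ha, h1⟩ ⟨d', a', ha', h2⟩
  have hd : d = d' := le_antisymm (lead_deg (col_ne _ ha) h1 h2) (lead_deg (col_ne _ ha') h2 h1)
  subst hd
  apply hij
  have h3 : ∀ l, a * i.out.1.val l none = a' * j.out.1.val l none :=
    fun l => (h1 l).2.symm.trans (h2 l).2
  rw [← QuotientGroup.out_eq' i, ← QuotientGroup.out_eq' j, eq_comm, QuotientGroup.eq, mem_Pp]
  intro l hl
  show ((j.out.1⁻¹).val * i.out.1.val) l none = 0
  have h4 : a * ((j.out.1⁻¹).val * i.out.1.val) l none =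
      a' * ((j.out.1⁻¹).val * j.out.1.val) l none := by
    rw [Matrix.mul_apply, Matrix.mul_apply, Finset.mul_sum, Finset.mul_sum]
    apply Finset.sum_congr rfl
    intro m _
    linear_combination (j.out.1⁻¹).val l m * h3 m
  rw [← Units.val_mul (j.out.1⁻¹) j.out.1, inv_mul_cancel, Units.val_one, Matrix.one_apply_ne hl,
    mul_zero] at h4
  exact (mul_eq_zero.1 h4).resolve_left ha

theorem XI_nonempty (i : Lns σ b) : (XI i).Nonempty := by
  refine ⟨fun l => C (i.out.1.val l none), 0, 1, one_ne_zero, fun l => ?_⟩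
  simp

theorem ping (h : Herm σ b) (han : An σ b) (i j : Lns σ b) (hij : i ≠ j) (x : GT σ b)
    (hx : x ∈ Ui i) (hx1 : x ≠ 1) (v : Vc ι K[X]) (hv : v ∈ XI j) : x • v ∈ XI i := by
  obtain ⟨d, a, ha, h1⟩ := hv
  set g := i.out with hg
  have hx' : (sH σ b g)⁻¹ * x * sH σ b g ∈ Uh (1 : GK σ b) := by
    have h2 := (Ui_conj g⁻¹ i x).1 hx
    have h3 : g⁻¹ • i = QuotientGroup.mk (1 : GK σ b) := by
      rw [← QuotientGroup.out_eq' i]
      show QuotientGroup.mk (g⁻¹ * i.out) = _
      rw [hg, inv_mul_cancel]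
    rw [h3, Ui_mk, map_inv, inv_inv] at h2
    exact h2
  obtain ⟨w, z, hz, hw0, hz0, e⟩ := Uh_one h han hx'
  have hne : ¬ ((∀ i, w i = 0) ∧ z = 0) := by
    rintro ⟨hw, rfl⟩
    apply hx1
    have e1 : Ei (hermT h) w 0 hz = 1 := by
      apply Units.ext
      rw [Ei_val, Units.val_one, ← EM_one (σ := sT σ) (b := bT b)]
      congr 1
      funext i
      exact hw i
    have e2 : (sH σ b g)⁻¹ * x * sH σ b g = 1 := Subtype.ext (by rw [e, e1]; rfl)
    have e3 : x = sH σ b g * ((sH σ b g)⁻¹ * x * sH σ b g) * (sH σ b g)⁻¹ := by group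
    rw [e3, e2]
    group
  have h2 := lead_const h1 g⁻¹
  have h3 := lead_Ei h han hz hw0 hz0 hne h2
  have h4 := lead_const h3 g
  have hxv : x • v = (sH σ b g).1.val.mulVec ((Ei (hermT h) w z hz).val.mulVec
      ((sH σ b g⁻¹).1.val.mulVec v)) := by
    have e3 : x = sH σ b g * ((sH σ b g)⁻¹ * x * sH σ b g) * (sH σ b g)⁻¹ := by group
    have e4 : x • v = sH σ b g • (((sH σ b g)⁻¹ * x * sH σ b g) • ((sH σ b g)⁻¹ • v)) := by
      rw [← mul_smul, ← mul_smul]
      exact congrArg (fun y : GT σ b => y • v) e3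
    rw [e4]
    show (sH σ b g).1.val.mulVec (((sH σ b g)⁻¹ * x * sH σ b g).1.val.mulVec
      (((sH σ b g)⁻¹).1.val.mulVec v)) = _
    rw [e, map_inv]
  refine ⟨z.natDegree + d, z.leadingCoeff * (g⁻¹.1.val.mulVec
      (fun l => a * j.out.1.val l none)) (some none), ?_, ?_⟩
  · apply mul_ne_zero (leadingCoeff_ne_zero.2 (deg_wz han hz hw0 hz0 hne).1)
    intro h5
    apply hij
    rw [← QuotientGroup.out_eq' i, ← QuotientGroup.out_eq' j, QuotientGroup.eq]
    apply pp_of_f han
    show ((g.1⁻¹).val * j.out.1.val) (some none) none = 0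
    have h6 : a * ((g.1⁻¹).val * j.out.1.val) (some none) none = 0 := by
      rw [← h5, Matrix.mul_apply, Matrix.mulVec, dotProduct, Finset.mul_sum]
      apply Finset.sum_congr rfl
      intro m _
      show a * ((g.1⁻¹).val (some none) m * j.out.1.val m none) =
        (g.1⁻¹).val (some none) m * (a * j.out.1.val m none)
      ring
    exact (mul_eq_zero.1 h6).resolve_left ha
  · rw [hxv]
    intro l
    obtain ⟨k1, k2⟩ := h4 l
    refine ⟨k1, ?_⟩
    rw [k2, Matrix.mulVec, dotProduct, Finset.sum_eq_single none]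
    · rw [if_pos rfl]
      ring
    · intro m _ hm
      rw [if_neg hm, mul_zero]
    · intro h'
      exact absurd (Finset.mem_univ _) h'

end fre

end Pool.Agent.R933.Un
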