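import Pool.Agent.R933.Un.Fre

/-!
# Generation, and the theorem on groups of isometries
-/

set_option autoImplicit false
set_option linter.unusedSectionVars false
set_option linter.unusedSimpArgs false

namespace Pool.Agent.R933.Un

open Polynomial Pool.Agent.Y110.FJ Pool.Agent.R933.FJ

section gen

variable {ι K : Type} [Fintype ι] [DecidableEq ι] [Field K] {σ : K →+* K} {b : Matrix ι ι K}

/-- the subgroup generated by the unipotent groups -/
noncomputable def MM (σ : K →+* K) (b : Matrix ι ι K) : Subgroup (GT σ b) :=
  ⨆ i : Lns σ b, Ui i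

theorem Ui_ker (i : Lns σ b) : Ui i ≤ (ev σ b).ker := inf_le_left

theorem MM_conj (q : GK σ b) {x : GT σ b} (hx : x ∈ MM σ b) :
    sH σ b q * x * (sH σ b q)⁻¹ ∈ MM σ b := by
  have hle : MM σ b ≤ (MM σ b).comap (MulAut.conj (sH σ b q)).toMonoidHom := by
    refine iSup_le fun i => ?_
    intro y hy
    rw [Subgroup.mem_comap]
    exact (le_iSup (fun i : Lns σ b => Ui i) _) ((Ui_conj q i y).1 hy)
  exact hle hx

/-- products of elements of `MM` and constants -/
noncomputable def HH (σ : K →+* K) (b : Matrix ι ι K) : Subgroup (GT σ b) :=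
  prodSub (ev σ b) (sH σ b) (MM σ b) (fun q _ hx => MM_conj q hx)

theorem mem_HH {g : GT σ b} : g ∈ HH σ b ↔ g * (sH σ b (ev σ b g))⁻¹ ∈ MM σ b :=
  mem_prodSub _ _ _ _

theorem const_mem {g : GT σ b} (hg : ∀ i j, g.1.val i j = C ((g.1.val i j).coeff 0)) :
    g ∈ HH σ b := by
  rw [mem_HH, sH_of_const hg, mul_inv_cancel]
  exact (MM σ b).one_mem

/-- an Eichler transformation as an element of the group -/
noncomputable def eT (h : Herm σ b) (w : ι → K[X]) (z : K[X]) (hz : Cd (sT σ) (bT b) w z) :
    GT σ b := ⟨Ei (hermT h) w z hz, Ei_mem _ _ _ _⟩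

theorem fix_e {S : Type} [CommRing S] {g : (Matrix (Ix ι) (Ix ι) S)ˣ}
    (h1 : g.val none none = 1) (h2 : g.val (some none) none = 0)
    (h3 : ∀ i, g.val (some (some i)) none = 0) :
    g.val.mulVec (Pi.single none 1 : Ix ι → S) = Pi.single none 1 := by
  rw [Matrix.mulVec_single_one]
  exact ext_v (by rw [Pi.single_eq_same]; exact h1) (by rw [Pi.single_eq_of_ne (by simp)]; exact h2)
    (fun i => by rw [Pi.single_eq_of_ne (by simp)]; exact h3 i)

theorem cv_one : cv (1 : GK σ b) = (Pi.single none 1 : Ix ι → K[X]) := by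
  funext l
  show C ((1 : Matrix (Ix ι) (Ix ι) K) l none) = _
  rw [Matrix.one_apply, Pi.single_apply]
  split_ifs
  · exact C_1
  · exact C_0

theorem eT_mem (h : Herm σ b) (w : ι → K[X]) (z : K[X]) (hz : Cd (sT σ) (bT b) w z) :
    eT h w z hz ∈ HH σ b := by
  rw [mem_HH]
  refine (le_iSup (fun i : Lns σ b => Ui i) (QuotientGroup.mk 1)) ?_
  show _ ∈ Ui _
  rw [Ui_mk, mem_Uh]
  refine ⟨by rw [map_mul, map_inv, ev_sH, mul_inv_cancel], ?_⟩
  obtain ⟨e1, e2, e3⟩ := EM_col_e (σ := sT σ) (b := bT b) w z
  have f1 : eT h w z hz • cv (1 : GK σ b) = cv (1 : GK σ b) := by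
    rw [cv_one]
    exact fix_e (g := Ei (hermT h) w z hz) e1 e2 e3
  have f2 : sH σ b (ev σ b (eT h w z hz)) • cv (1 : GK σ b) = cv (1 : GK σ b) := by
    rw [cv_one]
    refine fix_e (g := (sH σ b (ev σ b (eT h w z hz))).1) ?_ ?_ ?_
    · rw [sH_val, ev_val]
      show C ((EM (sT σ) (bT b) w z none none).coeff 0) = 1
      rw [e1, coeff_one_zero, C_1]
    · rw [sH_val, ev_val]
      show C ((EM (sT σ) (bT b) w z (some none) none).coeff 0) = 0
      rw [e2, coeff_zero, C_0]
    · intro i
      rw [sH_val, ev_val]
      show C ((EM (sT σ) (bT b) w z (some (some i)) none).coeff 0) = 0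
      rw [e3, coeff_zero, C_0]
  have f3 : (sH σ b (ev σ b (eT h w z hz)))⁻¹ • cv (1 : GK σ b) = cv (1 : GK σ b) := by
    rw [inv_smul_eq_iff]
    exact f2.symm
  rw [mul_smul, f3, f1]

/-- the swap as an element of the group -/
noncomputable def wT (σ : K →+* K) (b : Matrix ι ι K) : GT σ b := ⟨Ww ι K[X], Ww_mem⟩

theorem wT_mem : wT σ b ∈ HH σ b := by
  apply const_mem
  intro i j
  have h1 : ∀ i j, (wT σ b).1.val i j = WL ι K[X] (Pi.single j 1) i := by
    intro i j
    rw [← Ww_mulVec, Matrix.mulVec_single_one]
    rfl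
  have h2 : ∀ i j : Ix ι, (Pi.single j 1 : Ix ι → K[X]) i =
      C (((Pi.single j 1 : Ix ι → K[X]) i).coeff 0) := by
    intro i j
    rw [Pi.single_apply]
    split_ifs
    · simp
    · simp
  rw [h1]
  match i with
  | none => exact h2 _ _
  | some none => exact h2 _ _
  | some (some i) => exact h2 _ _

theorem base_mem (h : Herm σ b) (han : An σ b) (g : GT σ b)
    (hg : g.1.val (some none) none = 0) : g ∈ HH σ b := by
  obtain ⟨w, z, hz, A, B, Y, e1, -⟩ := base h han g.2 hg
  have h1 : g = eT h w z hz * ((eT h w z hz)⁻¹ * g) := by group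
  rw [h1]
  refine (HH σ b).mul_mem (eT_mem h w z hz) (const_mem ?_)
  intro i j
  have h2 : ((eT h w z hz)⁻¹ * g).1.val = DD A B Y := e1
  rw [h2]
  match i, j with
  | none, none => simp [DD]
  | none, some none => simp [DD]
  | none, some (some j) => simp [DD]
  | some none, none => simp [DD]
  | some none, some none => simp [DD]
  | some none, some (some j) => simp [DD]
  | some (some i), none => simp [DD]
  | some (some i), some none => simp [DD]
  | some (some i), some (some j) => simp [DD]

theorem mod_small {q : K[X]} (hq : q ≠ 0) (p : K[X]) :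
    p % q = 0 ∨ (p % q).natDegree < q.natDegree := by
  by_cases h : q.natDegree = 0
  · left
    have h1 : q = C (q.coeff 0) := eq_C_of_natDegree_eq_zero h
    have h2 : q.coeff 0 ≠ 0 := by
      intro h3
      rw [h3, C_0] at h1
      exact hq h1
    have h3 : IsUnit q := by
      rw [h1]
      exact isUnit_C.2 (isUnit_iff_ne_zero.2 h2)
    exact EuclideanDomain.mod_eq_zero.2 h3.dvd
  · right
    exact natDegree_mod_lt p h

theorem half_cd (h : Herm σ b) (h2 : (2 : K) ≠ 0) (w : ι → K[X]) :
    Cd (sT σ) (bT b) w (- (C (2⁻¹ : K)) * h0 (sT σ) (bT b) w w) := by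
  unfold Cd
  have e1 : sT σ (C (2⁻¹ : K)) = C (2⁻¹ : K) := by
    rw [sT_C, map_inv₀, map_ofNat]
  rw [map_mul, map_neg, e1, h0_symm (hermT h)]
  have e2 : (C (2⁻¹ : K)) * 2 = (1 : K[X]) := by
    have : (2 : K[X]) = C 2 := (map_ofNat C 2).symm
    rw [this, ← C_mul, inv_mul_cancel₀ h2, C_1]
  linear_combination (- h0 (sT σ) (bT b) w w) * e2

theorem skew (β : ℕ) (hβ : 0 < β) {B q r H : K[X]} (hB : B.natDegree = β) (hB0 : B ≠ 0)
    (hr : r.natDegree < β) (hH : H.natDegree < 2 * β)
    (heq : sT σ (B * q + r) * B + sT σ B * (B * q + r) + H = 0) : q + sT σ q = 0 := by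
  by_contra hne
  have hsB : (sT σ B).natDegree = β := by rw [sT_deg, hB]
  have hsB0 : sT σ B ≠ 0 := by
    intro h0
    rw [h0, natDegree_zero] at hsB
    omega
  have h1 : sT σ B * B * (q + sT σ q) = - (sT σ r * B + sT σ B * r + H) := by
    rw [map_add, map_mul] at heq
    linear_combination heq
  have h2 : (sT σ B * B * (q + sT σ q)).natDegree = β + β + (q + sT σ q).natDegree := by
    rw [natDegree_mul (mul_ne_zero hsB0 hB0) hne, natDegree_mul hsB0 hB0, hsB, hB]
  have h3 : (sT σ r * B + sT σ B * r + H).natDegree ≤ 2 * β - 1 := by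
    apply natDegree_add_le_of_degree_le
    · apply natDegree_add_le_of_degree_le
      · refine natDegree_mul_le.trans ?_
        rw [sT_deg, hB]
        omega
      · refine natDegree_mul_le.trans ?_
        rw [hsB]
        omega
    · omega
  rw [h1, natDegree_neg] at h2
  omega

/-- **generation** -/
theorem all_mem (h : Herm σ b) (han : An σ b) (h2 : (2 : K) ≠ 0) : ∀ (n : ℕ) (g : GT σ b),
    (g.1.val (some none) none = 0 ∨ (g.1.val (some none) none).natDegree < n) →
    g ∈ HH σ b := by
  intro n
  induction n with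
  | zero =>
    intro g hg
    rcases hg with h1 | h1
    · exact base_mem h han g h1
    · exact absurd h1 (Nat.not_lt_zero _)
  | succ n ih =>
    intro g hg
    by_cases hB0 : g.1.val (some none) none = 0
    · exact base_mem h han g hB0
    have hlt := hg.resolve_left hB0
    set B : K[X] := g.1.val (some none) none with hB
    -- the first step
    set w : ι → K[X] := fun i => - (g.1.val (some (some i)) none / B) with hw
    set z : K[X] := - (C (2⁻¹ : K)) * h0 (sT σ) (bT b) w w with hz
    set g2 : GT σ b := eT h w z (half_cd h h2 w) * g with hg2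
    have hcol2 : ∀ i, g2.1.val i none = LL (sT σ) (bT b) w z (fun l => g.1.val l none) i := by
      intro i
      rw [← EM_mulVec]
      rfl
    have c1 : g2.1.val (some none) none = B := by rw [hcol2, LL_f]
    have c2 : ∀ i, g2.1.val (some (some i)) none = g.1.val (some (some i)) none % B := by
      intro i
      rw [hcol2, LL_y]
      show g.1.val (some (some i)) none + -(g.1.val (some (some i)) none / B) * B = _
      have h3 := EuclideanDomain.div_add_mod (g.1.val (some (some i)) none) B
      linear_combination - h3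
    set a2 : K[X] := g2.1.val none none with ha2
    have hiso : sT σ a2 * B + sT σ B * a2 + h0 (sT σ) (bT b)
        (fun i => g2.1.val (some (some i)) none) (fun i => g2.1.val (some (some i)) none) = 0 := by
      have h3 := hf_col g2.2 none none
      unfold hf at h3
      beta_reduce at h3
      rw [c1] at h3
      exact h3
    -- the quotient is skew
    have hqr := EuclideanDomain.div_add_mod a2 B
    have hskew : a2 / B + sT σ (a2 / B) = 0 := by
      rcases Nat.eq_zero_or_pos B.natDegree with hβ | hβ
      · have hr : a2 % B = 0 := by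
          rcases mod_small hB0 a2 with h4 | h4
          · exact h4
          · omega
        have hy : ∀ i, g2.1.val (some (some i)) none = 0 := by
          intro i
          rw [c2]
          rcases mod_small hB0 (g.1.val (some (some i)) none) with h4 | h4
          · exact h4
          · omega
        have hH : h0 (sT σ) (bT b) (fun i => g2.1.val (some (some i)) none)
            (fun i => g2.1.val (some (some i)) none) = 0 := by
          simp only [hy]
          exact h0_zero_left _
        rw [hH, add_zero] at hiso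
        rw [hr, add_zero] at hqr
        have hsB0 : sT σ B ≠ 0 := by
          intro h5
          have h6 := (hermT h).inv B
          rw [h5, map_zero] at h6
          exact hB0 h6.symm
        have h5 : sT σ B * B * (a2 / B + sT σ (a2 / B)) = 0 := by
          rw [← hqr, map_mul] at hiso
          have h7 : B * (a2 / B) / B = a2 / B := by rw [hqr]
          linear_combination hiso
        exact (mul_eq_zero.1 h5).resolve_left (mul_ne_zero hsB0 hB0)
      · refine skew B.natDegree hβ (r := a2 % B) (H := h0 (sT σ) (bT b)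
            (fun i => g2.1.val (some (some i)) none) (fun i => g2.1.val (some (some i)) none))
            rfl hB0 ?_ ?_ ?_
        · rcases mod_small hB0 a2 with h4 | h4
          · rw [h4, natDegree_zero]
            exact hβ
          · exact h4
        · have hy : ∀ i, (g2.1.val (some (some i)) none).natDegree ≤ B.natDegree - 1 := by
            intro i
            rw [c2]
            rcases mod_small hB0 (g.1.val (some (some i)) none) with h4 | h4
            · rw [h4, natDegree_zero]
              exact Nat.zero_le _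
            · omega
          have h4 := (h0_deg (σ := σ) (b := b) hy hy).1
          omega
        · rw [hqr]
          exact hiso
    have hcd : Cd (sT σ) (bT b) (fun _ => 0) (- (a2 / B)) := by
      unfold Cd
      rw [h0_zero_left, map_neg]
      linear_combination - hskew
    set g3 : GT σ b := eT h (fun _ => 0) (- (a2 / B)) hcd * g2 with hg3
    have hcol3 : ∀ i, g3.1.val i none =
        LL (sT σ) (bT b) (fun _ => 0) (- (a2 / B)) (fun l => g2.1.val l none) i := by
      intro i
      rw [← EM_mulVec]
      rfl
    have d1 : g3.1.val none none = a2 % B := by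
      rw [hcol3, LL_e, h0_zero_left, c1]
      linear_combination - hqr
    set g4 : GT σ b := wT σ b * g3 with hg4
    have hcol4 : ∀ i, g4.1.val i none = WL ι K[X] (fun l => g3.1.val l none) i := by
      intro i
      rw [← Ww_mulVec]
      rfl
    have e1 : g4.1.val (some none) none = a2 % B := by
      rw [hcol4]
      exact d1
    have hmem4 : g4 ∈ HH σ b := by
      apply ih
      rw [e1]
      rcases mod_small hB0 a2 with h4 | h4
      · exact Or.inl h4
      · right
        omega
    have h5 : g = (eT h w z (half_cd h h2 w))⁻¹ * ((eT h (fun _ => 0) (- (a2 / B)) hcd)⁻¹ *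
        ((wT σ b)⁻¹ * g4)) := by
      rw [hg4, hg3, hg2]
      group
    rw [h5]
    exact (HH σ b).mul_mem ((HH σ b).inv_mem (eT_mem h _ _ _)) ((HH σ b).mul_mem
      ((HH σ b).inv_mem (eT_mem h _ _ _)) ((HH σ b).mul_mem ((HH σ b).inv_mem wT_mem) hmem4))

theorem MM_eq (h : Herm σ b) (han : An σ b) (h2 : (2 : K) ≠ 0) : MM σ b = (ev σ b).ker := by
  apply le_antisymm
  · exact iSup_le fun i => Ui_ker i
  · intro g hg
    have h1 : g ∈ HH σ b := all_mem h han h2 ((g.1.val (some none) none).natDegree + 1) g
      (Or.inr (Nat.lt_succ_self _))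
    rw [mem_HH, MonoidHom.mem_ker.1 hg, map_one, inv_one, mul_one] at h1
    exact h1

end gen

end Pool.Agent.R933.Un
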