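import Pool.Agent.R933.Un.Gen

/-!
# The theorem on groups of isometries
-/

set_option autoImplicit false
set_option linter.unusedSectionVars false
set_option linter.unusedSimpArgs false

namespace Pool.Agent.R933.Un

open Polynomial Pool.Agent.Y110.FJ Pool.Agent.R933.FJ

/-- `C` contains the solvable groups -/
def HasSolvable (C : ∀ (G : Type) [Group G], Prop) : Prop :=
  ∀ (G : Type) [Group G], Group.IsSolvable G → C G

section solv

variable {Γ Q : Type} [Group Γ] [Group Q]

theorem dec_sup (s : Γ) (U : Subgroup Γ)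
    (hconj : ∀ x ∈ U, s * x * s⁻¹ ∈ U) (hconj' : ∀ x ∈ U, s⁻¹ * x * s ∈ U) :
    ∀ x ∈ U ⊔ Subgroup.zpowers s, ∃ u ∈ U, ∃ k : ℤ, x = u * s ^ k := by
  have hz : ∀ k : ℤ, ∀ x ∈ U, s ^ k * x * (s ^ k)⁻¹ ∈ U := by
    have hn : ∀ k : ℕ, ∀ x ∈ U, s ^ k * x * (s ^ k)⁻¹ ∈ U := by
      intro k
      induction k with
      | zero => intro x hx; simpa using hx
      | succ k ih =>
        intro x hx
        have := hconj _ (ih x hx)
        rw [pow_succ']
        convert this using 1
        group
    have hn' : ∀ k : ℕ, ∀ x ∈ U, (s ^ k)⁻¹ * x * s ^ k ∈ U := by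
      intro k
      induction k with
      | zero => intro x hx; simpa using hx
      | succ k ih =>
        intro x hx
        have := hconj' _ (ih x hx)
        rw [pow_succ]
        convert this using 1
        group
    intro k x hx
    cases k with
    | ofNat k => simpa using hn k x hx
    | negSucc k =>
      rw [zpow_negSucc, inv_inv]
      exact hn' (k + 1) x hx
  intro x hx0
  have hx' : x ∈ Subgroup.closure ((U : Set Γ) ∪ (Subgroup.zpowers s : Set Γ)) := by
    rw [← Subgroup.sup_eq_closure]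
    exact hx0
  clear hx0
  induction hx' using Subgroup.closure_induction with
  | mem x hx =>
    rcases hx with hx | ⟨k, rfl⟩
    · exact ⟨x, hx, 0, by simp⟩
    · exact ⟨1, U.one_mem, k, by simp⟩
  | one => exact ⟨1, U.one_mem, 0, by simp⟩
  | mul x y hx1 hy1 hx hy =>
    obtain ⟨u, hu, k, rfl⟩ := hx
    obtain ⟨v, hv, l, rfl⟩ := hy
    refine ⟨u * (s ^ k * v * (s ^ k)⁻¹), U.mul_mem hu (hz k v hv), k + l, ?_⟩
    rw [zpow_add]
    group
  | inv x hx1 hx =>
    obtain ⟨u, hu, k, rfl⟩ := hx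
    refine ⟨s ^ (-k) * u⁻¹ * (s ^ (-k))⁻¹, hz (-k) _ (U.inv_mem hu), -k, ?_⟩
    rw [mul_inv_rev, inv_mul_cancel_right, zpow_neg]

/-- the solvable groups `U ⟨s q⟩` -/
theorem solv_sup (ev : Γ →* Q) (s : Q →* Γ) (hs : ∀ q, ev (s q) = q) (U : Subgroup Γ)
    (hsol : Group.IsSolvable ↥U) (hU : U ≤ ev.ker) (q : Q)
    (hconj : ∀ x ∈ U, s q * x * (s q)⁻¹ ∈ U) (hconj' : ∀ x ∈ U, (s q)⁻¹ * x * s q ∈ U) :
    Group.IsSolvable ↥(U ⊔ Subgroup.zpowers (s q)) := by
  have hdec := dec_sup (s q) U hconj hconj'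
  have hev : ∀ x : ↥(U ⊔ Subgroup.zpowers (s q)), ev x ∈ Subgroup.zpowers q := by
    rintro ⟨x, hx⟩
    obtain ⟨u, hu, k, rfl⟩ := hdec x hx
    refine ⟨k, ?_⟩
    show q ^ k = ev (u * s q ^ k)
    rw [map_mul, map_zpow, hs, MonoidHom.mem_ker.1 (hU hu), one_mul]
  have hz : Group.IsSolvable ↥(Subgroup.zpowers q) := by
    apply Group.isSolvable_of_comm
    rintro ⟨_, k, rfl⟩ ⟨_, l, rfl⟩
    apply Subtype.ext
    show q ^ k * q ^ l = q ^ l * q ^ k
    rw [← zpow_add, ← zpow_add, add_comm]
  refine Group.isSolvable_of_ker_le_range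
    (Subgroup.inclusion (le_sup_left : U ≤ U ⊔ Subgroup.zpowers (s q)))
    ((ev.comp (Subgroup.subtype (U ⊔ Subgroup.zpowers (s q)))).codRestrict (Subgroup.zpowers q) hev)
    ?_
  rintro ⟨x, hx⟩ hx1
  obtain ⟨u, hu, k, e⟩ := hdec x hx
  have h1 : ev x = 1 := congrArg Subtype.val (MonoidHom.mem_ker.1 hx1)
  have h2 : ev u = 1 := hU hu
  rw [e, map_mul, h2, one_mul, map_zpow, hs] at h1
  rw [← map_zpow, h1, map_one, mul_one] at e
  exact ⟨⟨u, hu⟩, Subtype.ext e.symm⟩

end solv

section mn

variable {ι K : Type} [Fintype ι] [DecidableEq ι] [Field K] {σ : K →+* K} {b : Matrix ι ι K}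

/-! ### three lines -/

theorem anis_single (han : An σ b) (i : ι) : h0 σ b (Pi.single i 1) (Pi.single i 1) ≠ 0 := by
  intro h
  have := han _ h i
  rw [Pi.single_eq_same] at this
  exact one_ne_zero this

theorem mk_ne {g h : GK σ b} (hgh : (g⁻¹ * h).1.val (some none) none ≠ 0) :
    (QuotientGroup.mk g : Lns σ b) ≠ QuotientGroup.mk h := by
  intro e
  rw [QuotientGroup.eq] at e
  exact hgh (mem_Pp.1 e _ (by simp))

/-- the swap over the field -/
noncomputable def wK (σ : K →+* K) (b : Matrix ι ι K) : GK σ b := ⟨Ww ι K, Ww_mem⟩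

theorem col_w (g : GK σ b) (l : Ix ι) : (wK σ b * g).1.val l none =
    WL ι K (fun m => g.1.val m none) l := by
  rw [← Ww_mulVec]
  rfl

theorem wK_inv : (wK σ b)⁻¹ = wK σ b := rfl

theorem w_fe : (wK σ b).1.val (some none) none = 1 := by
  have h := col_w (1 : GK σ b) (some none)
  rw [mul_one] at h
  rw [h]
  show (1 : Matrix (Ix ι) (Ix ι) K) none none = 1
  exact Matrix.one_apply_eq _

theorem w_ee : (wK σ b).1.val none none = 0 := by
  have h := col_w (1 : GK σ b) none
  rw [mul_one] at h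
  rw [h]
  show (1 : Matrix (Ix ι) (Ix ι) K) (some none) none = 0
  exact Matrix.one_apply_ne (by simp)

theorem w_ye (i : ι) : (wK σ b).1.val (some (some i)) none = 0 := by
  have h := col_w (1 : GK σ b) (some (some i))
  rw [mul_one] at h
  rw [h]
  show (1 : Matrix (Ix ι) (Ix ι) K) (some (some i)) none = 0
  exact Matrix.one_apply_ne (by simp)

theorem three [Nonempty ι] (h : Herm σ b) (han : An σ b) (h2 : (2 : K) ≠ 0) :
    3 ≤ Cardinal.mk (Lns σ b) := by
  obtain ⟨i0⟩ := ‹Nonempty ι›
  set w : ι → K := Pi.single i0 1 with hw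
  set z : K := - 2⁻¹ * h0 σ b w w with hz
  have hz0 : z ≠ 0 := by
    rw [hz]
    exact mul_ne_zero (neg_ne_zero.2 (inv_ne_zero h2)) (anis_single han i0)
  have hcd : Cd σ b w z := by
    unfold Cd
    rw [hz, map_mul, map_neg, map_inv₀, map_ofNat, h0_symm h]
    have : (2⁻¹ : K) * 2 = 1 := inv_mul_cancel₀ h2
    linear_combination (- h0 σ b w w) * this
  set E : GK σ b := ⟨Ei h w z hcd, Ei_mem _ _ _ _⟩ with hE
  have hcol : ∀ l, (E * wK σ b).1.val l none = LL σ b w z (fun m => (wK σ b).1.val m none) l := by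
    intro l
    rw [← EM_mulVec]
    rfl
  have e0 : (fun i => (wK σ b).1.val (some (some i)) none) = fun _ : ι => (0 : K) := by
    funext i
    exact w_ye i
  have e1 : (E * wK σ b).1.val none none = z := by
    rw [hcol, LL_e, e0, h0_zero_right, w_ee, w_fe]
    ring
  have e2 : (E * wK σ b).1.val (some none) none = 1 := by
    rw [hcol, LL_f, w_fe]
  have n1 : (QuotientGroup.mk 1 : Lns σ b) ≠ QuotientGroup.mk (wK σ b) := by
    apply mk_ne
    rw [inv_one, one_mul, w_fe]
    exact one_ne_zero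
  have n2 : (QuotientGroup.mk 1 : Lns σ b) ≠ QuotientGroup.mk (E * wK σ b) := by
    apply mk_ne
    rw [inv_one, one_mul, e2]
    exact one_ne_zero
  have n3 : (QuotientGroup.mk (wK σ b) : Lns σ b) ≠ QuotientGroup.mk (E * wK σ b) := by
    apply mk_ne
    rw [wK_inv, col_w]
    show (E * wK σ b).1.val none none ≠ 0
    rw [e1]
    exact hz0
  have hf : Function.Injective (![QuotientGroup.mk 1, QuotientGroup.mk (wK σ b),
      QuotientGroup.mk (E * wK σ b)] : Fin 3 → Lns σ b) := by
    intro x y hxy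
    fin_cases x <;> fin_cases y <;> simp at hxy ⊢
    · exact n1 hxy
    · exact n2 hxy
    · exact n1 hxy.symm
    · exact n3 hxy
    · exact n2 hxy.symm
    · exact n3 hxy.symm
  have := Cardinal.mk_le_of_injective hf
  simpa using this

theorem Ui_free [Nonempty ι] (h : Herm σ b) (han : An σ b) (h2 : (2 : K) ≠ 0) :
    FreeFam (fun i : Lns σ b => Ui i) := by
  have : Nontrivial (Lns σ b) := by
    rw [← Cardinal.one_lt_iff_nontrivial]
    refine lt_of_lt_of_le ?_ (three h han h2)
    norm_num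
  refine Monoid.CoprodI.lift_injective_of_ping_pong (fun i : Lns σ b => (Ui i).subtype)
    (Or.inl (three h han h2)) XI XI_nonempty (fun i j hij => XI_disj i j hij) ?_
  intro i j hij x hx
  rintro _ ⟨v, hv, rfl⟩
  exact ping h han i j hij x.1 x.2 (fun h => hx (Subtype.ext h)) v hv

/-! ### solvability -/

/-- the translation part -/
noncomputable def wpart (h : Herm σ b) (han : An σ b) :
    ↥(Uh (1 : GK σ b)) →* Multiplicative (ι → K[X]) where
  toFun x := Multiplicative.ofAdd (fun i => x.1.1.val (some (some i)) (some none))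
  map_one' := by
    apply Multiplicative.toAdd.injective
    funext i
    show (1 : Matrix (Ix ι) (Ix ι) K[X]) (some (some i)) (some none) = 0
    exact Matrix.one_apply_ne (by simp)
  map_mul' x y := by
    obtain ⟨w, z, hz, -, -, e⟩ := Uh_one h han x.2
    obtain ⟨w', z', hz', -, -, e'⟩ := Uh_one h han y.2
    apply Multiplicative.toAdd.injective
    funext i
    show (x.1.1.val * y.1.1.val) (some (some i)) (some none) =
      x.1.1.val (some (some i)) (some none) + y.1.1.val (some (some i)) (some none)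
    rw [e, e', Ei_val, Ei_val, EM_mul, (EM_col_f _ _).2.2, (EM_col_f _ _).2.2, (EM_col_f _ _).2.2]

theorem Uh_solv (h : Herm σ b) (han : An σ b) : Group.IsSolvable ↥(Uh (1 : GK σ b)) := by
  have hk : Group.IsSolvable ↥(wpart h han).ker := by
    apply Group.isSolvable_of_comm
    rintro ⟨x, hx⟩ ⟨y, hy⟩
    apply Subtype.ext
    show x * y = y * x
    obtain ⟨w, z, hz, -, -, e⟩ := Uh_one h han x.2
    obtain ⟨w', z', hz', -, -, e'⟩ := Uh_one h han y.2
    have hw : w = fun _ => 0 := by
      funext i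
      have h1 : (fun i => x.1.1.val (some (some i)) (some none)) = (0 : ι → K[X]) := hx
      have h3 : x.1.1.val (some (some i)) (some none) = 0 := congrFun h1 i
      rw [e, Ei_val, (EM_col_f _ _).2.2] at h3
      exact h3
    have hw' : w' = fun _ => 0 := by
      funext i
      have h1 : (fun i => y.1.1.val (some (some i)) (some none)) = (0 : ι → K[X]) := hy
      have h3 : y.1.1.val (some (some i)) (some none) = 0 := congrFun h1 i
      rw [e', Ei_val, (EM_col_f _ _).2.2] at h3
      exact h3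
    subst hw hw'
    apply Subtype.ext
    apply Subtype.ext
    apply Units.ext
    show x.1.1.val * y.1.1.val = y.1.1.val * x.1.1.val
    rw [e, e', Ei_val, Ei_val, EM_mul, EM_mul, h0_zero_left, add_comm z z']
  exact Group.isSolvable_of_ker_le_range (wpart h han).ker.subtype (wpart h han)
    (by rw [Subgroup.range_subtype])

theorem Ui_solv (h : Herm σ b) (han : An σ b) (i : Lns σ b) : Group.IsSolvable ↥(Ui i) := by
  have h3 : (i.out)⁻¹ • i = (QuotientGroup.mk (1 : GK σ b) : Lns σ b) := by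
    conv_lhs => rw [← QuotientGroup.out_eq' i]
    show QuotientGroup.mk ((QuotientGroup.mk i.out : Lns σ b).out⁻¹ * _) = _
    rw [QuotientGroup.out_eq', inv_mul_cancel]
  have := Uh_solv h han
  let f : ↥(Ui i) →* ↥(Uh (1 : GK σ b)) :=
    ((MulAut.conj (sH σ b (i.out)⁻¹)).toMonoidHom.comp (Ui i).subtype).codRestrict
      (Uh (1 : GK σ b)) (by
        rintro ⟨x, hx⟩
        have h2 := (Ui_conj (i.out)⁻¹ i x).1 hx
        rw [h3, Ui_mk] at h2
        exact h2)
  apply Group.isSolvable_of_isSolvable_injective (f := f)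
  intro x y hxy
  have h4 := congrArg Subtype.val hxy
  exact Subtype.ext ((MulAut.conj (sH σ b (i.out)⁻¹)).injective h4)

/-! ### the theorem over a field -/

theorem main_field [Nonempty ι] {C : ∀ (G : Type) [Group G], Prop} (hC : ClosedE C)
    (hS : HasSolvable C) (h : Herm σ b) (han : An σ b) (h2 : (2 : K) ≠ 0)
    (G : Subgroup (GT σ b)) (hG : C ↥(G.map (ev σ b))) : C ↥G := by
  have h1 : C ↥((G.map (ev σ b)).comap (ev σ b)) := by
    refine ambient hC (ev σ b) (sH σ b) ev_sH (fun i : Lns σ b => Ui i) (Ui_free h han h2)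
      (MM_eq h han h2) Ui_conj ?_ ?_ (G.map (ev σ b)) hG
    · intro i
      exact hS _ (Ui_solv h han i)
    · intro i q hq
      apply hS
      refine solv_sup (ev σ b) (sH σ b) ev_sH (Ui i) (Ui_solv h han i) (Ui_ker i) q ?_ ?_
      · intro x hx
        have h2 := (Ui_conj q i x).1 hx
        rwa [hq] at h2
      · intro x hx
        have hq' : q⁻¹ • i = i := by rw [inv_smul_eq_iff, hq]
        have h2 := (Ui_conj q⁻¹ i x).1 hx
        rw [hq', map_inv, inv_inv] at h2
        exact h2
  exact hC.base.of_injective _ _ (Subgroup.inclusion (Subgroup.le_comap_map (ev σ b) G))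
    (Subgroup.inclusion_injective _) h1

end mn

end Pool.Agent.R933.Un
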