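import Pool.Agent.R933.Un.Main

/-!
# Domains, polynomial rings in several variables and graded rings
-/

set_option autoImplicit false
set_option linter.unusedSectionVars false
set_option linter.unusedSimpArgs false

namespace Pool.Agent.R933.Un

open Pool.Agent.Y110.FJ Pool.Agent.R933.FJ

section emb

variable {ι S S' : Type} [Fintype ι] [DecidableEq ι] [CommRing S] [CommRing S']

theorem mp_injective (φ : S →+* S') (hφ : Function.Injective φ) :
    Function.Injective (mp φ : (Matrix (Ix ι) (Ix ι) S)ˣ →* (Matrix (Ix ι) (Ix ι) S')ˣ) := by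
  intro g h hgh
  apply Units.ext
  ext i j
  apply hφ
  rw [← mp_val, ← mp_val, hgh]

theorem mp_comp {S'' : Type} [CommRing S''] (φ : S →+* S') (ψ : S' →+* S'') :
    (mp (ψ.comp φ) : (Matrix (Ix ι) (Ix ι) S)ˣ →* (Matrix (Ix ι) (Ix ι) S'')ˣ) =
      (mp ψ).comp (mp φ) := by
  ext g i j
  rfl

theorem mp_id : (mp (RingHom.id S) : (Matrix (Ix ι) (Ix ι) S)ˣ →* (Matrix (Ix ι) (Ix ι) S)ˣ) =
    MonoidHom.id _ := by
  ext g i j
  rfl

theorem h0_map (φ : S →+* S') {σ : S →+* S} {σ' : S' →+* S'} {b : Matrix ι ι S}
    (h1 : ∀ x, φ (σ x) = σ' (φ x)) (w y : ι → S) :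
    φ (h0 σ b w y) = h0 σ' (b.map φ) (fun i => φ (w i)) (fun i => φ (y i)) := by
  unfold h0
  rw [map_sum]
  apply Finset.sum_congr rfl
  intro i _
  rw [map_sum]
  apply Finset.sum_congr rfl
  intro j _
  rw [map_mul, map_mul, h1]
  rfl

/-- anisotropy over a subring -/
theorem an_of_inj (φ : S →+* S') (hφ : Function.Injective φ) {σ : S →+* S} {σ' : S' →+* S'}
    {b : Matrix ι ι S} (h1 : ∀ x, φ (σ x) = σ' (φ x)) (h2 : An σ' (b.map φ)) : An σ b := by
  intro y hy i
  apply hφ
  rw [map_zero]
  refine h2 (fun i => φ (y i)) ?_ i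
  rw [← h0_map φ h1, hy, map_zero]

/-- hermitian forms over a larger ring -/
theorem herm_sym (φ : S →+* S') {σ : S →+* S} {σ' : S' →+* S'} {b : Matrix ι ι S}
    (h1 : ∀ x, φ (σ x) = σ' (φ x)) (h : Herm σ b) (hinv : ∀ x, σ' (σ' x) = x) :
    Herm σ' (b.map φ) where
  inv := hinv
  sym i j := by
    show σ' (φ (b i j)) = φ (b j i)
    rw [← h1, h.sym]

end emb

section frac

variable {ι A : Type} [Fintype ι] [DecidableEq ι] [CommRing A] [IsDomain A]
  {σ : A →+* A} {b : Matrix ι ι A}

theorem inj_of_inv (hinv : ∀ x, σ (σ x) = x) : Function.Injective σ :=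
  Function.LeftInverse.injective hinv

/-- the involution on the field of fractions -/
noncomputable def sF (hinv : ∀ x, σ (σ x) = x) : FractionRing A →+* FractionRing A :=
  IsFractionRing.map (K := FractionRing A) (L := FractionRing A) (inj_of_inv hinv)

theorem sF_alg (hinv : ∀ x, σ (σ x) = x) (x : A) :
    sF hinv (algebraMap A (FractionRing A) x) = algebraMap A (FractionRing A) (σ x) :=
  IsLocalization.map_eq (M := nonZeroDivisors A) (S := FractionRing A) (Q := FractionRing A)
    (T := nonZeroDivisors A)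
    (nonZeroDivisors_le_comap_nonZeroDivisors_of_injective σ (inj_of_inv hinv)) x

theorem sF_inv (hinv : ∀ x, σ (σ x) = x) (x : FractionRing A) : sF hinv (sF hinv x) = x := by
  obtain ⟨p, q, hq, rfl⟩ := IsFractionRing.div_surjective A x
  rw [map_div₀, map_div₀, sF_alg, sF_alg, sF_alg, sF_alg, hinv, hinv]

/-- anisotropy over the field of fractions -/
theorem an_frac (h : Herm σ b) (han : An σ b) :
    An (sF h.inv) (b.map (algebraMap A (FractionRing A))) := by
  intro y hy
  obtain ⟨⟨d, hd⟩, hd'⟩ := IsLocalization.exist_integer_multiples_of_finite (nonZeroDivisors A) y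
  choose z hz using hd'
  have hinj := IsFractionRing.injective A (FractionRing A)
  have hd0 : algebraMap A (FractionRing A) d ≠ 0 := by
    intro h0
    have : d = 0 := hinj (by rw [h0, map_zero])
    exact (mem_nonZeroDivisors_iff_ne_zero.1 hd) this
  have hz' : ∀ i, algebraMap A (FractionRing A) (z i) = y i * algebraMap A (FractionRing A) d := by
    intro i
    rw [hz i]
    show d • y i = _
    rw [Algebra.smul_def, mul_comm]
  have h1 : h0 σ b z z = 0 := by
    apply hinj
    rw [map_zero, h0_map (algebraMap A (FractionRing A)) (σ' := sF h.inv)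
      (fun x => (sF_alg h.inv x).symm)]
    simp only [hz']
    rw [h0_smul_right, h0_smul_left, hy]
    ring
  intro i
  have h2 := han z h1 i
  have h3 := hz' i
  rw [h2, map_zero] at h3
  exact (mul_eq_zero.1 h3.symm).resolve_right hd0

end frac

section sev

variable {ι R : Type} [Fintype ι] [DecidableEq ι] [CommRing R] [IsDomain R]
  {σ : R →+* R} {b : Matrix ι ι R}

/-- one more variable -/
theorem an_poly (h : Herm σ b) (han : An σ b) :
    An (Polynomial.mapRingHom σ) (b.map (Polynomial.C : R →+* Polynomial R)) := by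
  set φ : Polynomial R →+* Polynomial (FractionRing R) :=
    Polynomial.mapRingHom (algebraMap R (FractionRing R)) with hφ
  refine an_of_inj φ (Polynomial.map_injective _ (IsFractionRing.injective R (FractionRing R)))
    (σ' := sT (sF h.inv)) ?_ ?_
  · intro x
    ext n
    rw [sT_coeff, hφ]
    simp [sF_alg]
  · have h1 := anT (an_frac h han)
    have h2 : bT (b.map (algebraMap R (FractionRing R))) =
        (b.map (Polynomial.C : R →+* Polynomial R)).map φ := by
      ext1 i j
      show Polynomial.C (algebraMap R (FractionRing R) (b i j)) = φ (Polynomial.C (b i j))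
      rw [hφ]
      simp
    rwa [h2] at h1

/-- the involution on polynomials in several variables -/
noncomputable def sM (τ : Type) (σ : R →+* R) : MvPolynomial τ R →+* MvPolynomial τ R :=
  MvPolynomial.map σ

/-- the form over the polynomials in several variables -/
noncomputable def bM (τ : Type) (b : Matrix ι ι R) : Matrix ι ι (MvPolynomial τ R) :=
  b.map (MvPolynomial.C : R →+* MvPolynomial τ R)

theorem hermM (τ : Type) (h : Herm σ b) : Herm (sM τ σ) (bM τ b) := by
  refine herm_sym MvPolynomial.C (fun x => (MvPolynomial.map_C σ x).symm) h ?_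
  intro p
  have h1 : (sM τ σ).comp (sM τ σ) = RingHom.id _ := by
    apply MvPolynomial.ringHom_ext
    · intro r
      simp [sM, h.inv]
    · intro i
      simp [sM]
  exact DFunLike.congr_fun h1 p

theorem an_fin (h : Herm σ b) (han : An σ b) (n : ℕ) : An (sM (Fin n) σ) (bM (Fin n) b) := by
  induction n with
  | zero =>
    set e : MvPolynomial (Fin 0) R →+* R :=
      ((MvPolynomial.isEmptyRingEquiv R (Fin 0) : MvPolynomial (Fin 0) R ≃+* R) :
        MvPolynomial (Fin 0) R →+* R) with he
    have heC : ∀ r, e (MvPolynomial.C r) = r := by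
      intro r
      exact MvPolynomial.coeff_zero_C r
    refine an_of_inj e (MvPolynomial.isEmptyRingEquiv R (Fin 0)).injective (σ' := σ) ?_ ?_
    · intro x
      have h1 : e.comp (sM (Fin 0) σ) = σ.comp e := by
        apply MvPolynomial.ringHom_ext
        · intro r
          simp [sM, heC]
        · intro i
          exact i.elim0
      exact DFunLike.congr_fun h1 x
    · have h2 : (bM (Fin 0) b).map e = b := by
        ext i j
        exact heC _
      rwa [h2]
  | succ n ih =>
    set e : MvPolynomial (Fin (n + 1)) R →+* Polynomial (MvPolynomial (Fin n) R) :=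
      ((MvPolynomial.finSuccEquiv R n : MvPolynomial (Fin (n + 1)) R ≃ₐ[R]
        Polynomial (MvPolynomial (Fin n) R)) : MvPolynomial (Fin (n + 1)) R →+*
        Polynomial (MvPolynomial (Fin n) R)) with he
    have heC : ∀ r, e (MvPolynomial.C r) = Polynomial.C (MvPolynomial.C r) := by
      intro r
      exact (MvPolynomial.finSuccEquiv R n).commutes r
    have he0 : e (MvPolynomial.X 0) = Polynomial.X := MvPolynomial.finSuccEquiv_X_zero
    have heS : ∀ j : Fin n, e (MvPolynomial.X j.succ) = Polynomial.C (MvPolynomial.X j) :=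
      fun j => MvPolynomial.finSuccEquiv_X_succ
    refine an_of_inj e (MvPolynomial.finSuccEquiv R n).injective
      (σ' := Polynomial.mapRingHom (sM (Fin n) σ)) ?_ ?_
    · intro x
      have h1 : e.comp (sM (Fin (n + 1)) σ) = (Polynomial.mapRingHom (sM (Fin n) σ)).comp e := by
        apply MvPolynomial.ringHom_ext
        · intro r
          simp [sM, heC]
        · intro i
          refine Fin.cases ?_ ?_ i
          · simp [sM, he0]
          · intro j
            simp [sM, heS]
      exact DFunLike.congr_fun h1 x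
    · have h2 : (bM (Fin (n + 1)) b).map e = (bM (Fin n) b).map
          (Polynomial.C : MvPolynomial (Fin n) R →+* Polynomial (MvPolynomial (Fin n) R)) := by
        ext1 i j
        exact heC _
      rw [h2]
      exact an_poly (hermM (Fin n) h) ih

/-- anisotropy over polynomials in any number of variables -/
theorem an_mv (h : Herm σ b) (han : An σ b) (τ : Type) : An (sM τ σ) (bM τ b) := by
  classical
  intro y hy
  let s : Finset τ := Finset.univ.biUnion (fun i => (y i).vars)
  let e : Fin s.card → τ := fun j => (s.equivFin.symm j : τ)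
  have he : Function.Injective e := Subtype.val_injective.comp s.equivFin.symm.injective
  have hr : ∀ i, ∃ q, MvPolynomial.rename e q = y i := by
    intro i
    apply MvPolynomial.exists_rename_eq_of_vars_subset_range _ _ he
    intro v hv
    have hvs : v ∈ s := Finset.mem_biUnion.2 ⟨i, Finset.mem_univ _, hv⟩
    refine ⟨s.equivFin ⟨v, hvs⟩, ?_⟩
    simp [e]
  choose q hq using hr
  let ρ : MvPolynomial (Fin s.card) R →+* MvPolynomial τ R :=
    (MvPolynomial.rename e : MvPolynomial (Fin s.card) R →ₐ[R] MvPolynomial τ R)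
  have hρ : Function.Injective ρ := MvPolynomial.rename_injective e he
  have hσ : ∀ x, ρ (sM (Fin s.card) σ x) = sM τ σ (ρ x) := by
    intro x
    have h1 : ρ.comp (sM (Fin s.card) σ) = (sM τ σ).comp ρ := by
      apply MvPolynomial.ringHom_ext
      · intro r
        simp [ρ, sM]
      · intro i
        simp [ρ, sM]
    exact DFunLike.congr_fun h1 x
  have hb : (bM (Fin s.card) b).map ρ = bM τ b := by
    ext1 i j
    show ρ (MvPolynomial.C (b i j)) = MvPolynomial.C (b i j)
    simp [ρ]
  have h1 : h0 (sM (Fin s.card) σ) (bM (Fin s.card) b) q q = 0 := by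
    apply hρ
    rw [map_zero, h0_map ρ hσ, hb]
    have h2 : (fun i => ρ (q i)) = y := funext hq
    rw [h2]
    exact hy
  intro i
  rw [← hq i, an_fin h han _ q h1 i, map_zero]

end sev

section thms

variable {ι : Type} [Fintype ι] [DecidableEq ι]
variable {C : ∀ (G : Type) [Group G], Prop}

/-- **embeddings in polynomial rings** -/
theorem main_embed [Nonempty ι] (hC : ClosedE C) (hS : HasSolvable C) {A D : Type} [CommRing A]
    [Field D] {σ : A →+* A} {b : Matrix ι ι A} {σD : D →+* D} {bD : Matrix ι ι D}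
    (h : Herm σD bD) (han : An σD bD) (h2 : (2 : D) ≠ 0)
    (θ : A →+* Polynomial D) (hθ : Function.Injective θ)
    (hθσ : ∀ x, θ (σ x) = Polynomial.mapRingHom σD (θ x))
    (hθb : b.map θ = bD.map (Polynomial.C : D →+* Polynomial D))
    (G : Subgroup (Matrix (Ix ι) (Ix ι) A)ˣ) (hG : G ≤ UG σ b)
    (hCG : C ↥(G.map (mp ((Polynomial.constantCoeff : Polynomial D →+* D).comp θ)))) : C ↥G := by
  apply C_of_map hC (mp θ) (mp_injective θ hθ)
  have hle : G.map (mp θ) ≤ UG (sT σD) (bT bD) := by
    rintro _ ⟨g, hg, rfl⟩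
    exact mp_mem θ hθσ hθb (hG hg)
  set G' : Subgroup (GT σD bD) := (G.map (mp θ)).subgroupOf (UG (sT σD) (bT bD)) with hG'
  have e1 : G'.map (UG (sT σD) (bT bD)).subtype = G.map (mp θ) := by
    rw [hG', Subgroup.subgroupOf_map_subtype]
    exact inf_eq_left.2 hle
  rw [← e1]
  apply C_map hC _ (Subgroup.subtype_injective _)
  apply main_field hC hS h han h2
  apply C_of_map hC (UG σD bD).subtype (Subgroup.subtype_injective _)
  have e2 : (G'.map (ev σD bD)).map (UG σD bD).subtype =
      G.map (mp ((Polynomial.constantCoeff : Polynomial D →+* D).comp θ)) := by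
    rw [mp_comp, ← Subgroup.map_map, ← e1, Subgroup.map_map, Subgroup.map_map]
    rfl
  rw [e2]
  exact hCG

theorem two_ne {A : Type} [CommRing A] [IsDomain A] (h2 : (2 : A) ≠ 0) :
    (2 : FractionRing A) ≠ 0 := by
  intro h
  apply h2
  apply IsFractionRing.injective A (FractionRing A)
  rw [map_zero, map_ofNat]
  exact h

section mv

variable {R : Type} [CommRing R] [IsDomain R] {σ : R →+* R} {b : Matrix ι ι R}

/-- **polynomial rings in several variables** -/
theorem main_mv [Nonempty ι] (hC : ClosedE C) (hS : HasSolvable C) (h : Herm σ b) (han : An σ b)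
    (h2 : (2 : R) ≠ 0) (τ : Type) (p : τ → R) (hp : ∀ i, σ (p i) = p i)
    (G : Subgroup (Matrix (Ix ι) (Ix ι) (MvPolynomial τ R))ˣ) (hG : G ≤ UG (sM τ σ) (bM τ b))
    (hCG : C ↥(G.map (mp (MvPolynomial.eval p)))) : C ↥G := by
  have h2' : (2 : MvPolynomial τ R) ≠ 0 := by
    intro h3
    apply h2
    apply MvPolynomial.C_injective τ R
    rw [map_zero, map_ofNat]
    exact h3
  refine main_embed hC hS
    (herm_sym (algebraMap (MvPolynomial τ R) (FF τ R)) (fun x => (sF_alg (hermM τ h).inv x).symm)
      (hermM τ h) (sF_inv (hermM τ h).inv))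
    (an_frac (hermM τ h) (an_mv h han τ)) (two_ne h2') (gen p) (gen_injective p) ?_ ?_ G hG ?_
  · intro x
    have h1 : (gen p).comp (sM τ σ) =
        (Polynomial.mapRingHom (sF (hermM τ h).inv)).comp (gen p) := by
      apply MvPolynomial.ringHom_ext
      · intro r
        have e1 := sF_alg (hermM τ h).inv (MvPolynomial.C r)
        simp [gen, sM, sF_alg]
      · intro i
        simp [gen, sM, sF_alg, hp]
    exact DFunLike.congr_fun h1 x
  · ext1 i j
    show gen p (MvPolynomial.C (b i j)) =
      Polynomial.C (algebraMap (MvPolynomial τ R) (FF τ R) (MvPolynomial.C (b i j)))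
    simp [gen]
  · rw [gen_zero, mp_comp, ← Subgroup.map_map]
    exact C_map hC _ (mp_injective _ inj_const) _ hCG

theorem main_mv_iff [Nonempty ι] (hC : ClosedE C) (hS : HasSolvable C) (h : Herm σ b)
    (han : An σ b) (h2 : (2 : R) ≠ 0) (τ : Type) :
    C ↥(UG (sM τ σ) (bM τ b)) ↔ C ↥(UG σ b) := by
  constructor
  · intro h1
    refine hC.base.of_injective _ _ (((mp (MvPolynomial.C : R →+* MvPolynomial τ R)).comp
      (UG σ b).subtype).codRestrict (UG (sM τ σ) (bM τ b))
      (fun g => mp_mem _ (fun a => (MvPolynomial.map_C σ a).symm) rfl g.2)) ?_ h1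
    intro x y hxy
    exact Subtype.ext (mp_injective _ (MvPolynomial.C_injective τ R) (congrArg Subtype.val hxy))
  · intro h1
    refine main_mv hC hS h han h2 τ (fun _ => 0) (fun _ => map_zero σ) _ le_rfl ?_
    have hle : (UG (sM τ σ) (bM τ b)).map (mp (MvPolynomial.eval (fun _ => (0 : R)))) ≤ UG σ b := by
      rintro _ ⟨g, hg, rfl⟩
      refine mp_mem _ ?_ ?_ hg
      · intro x
        have h3 : (MvPolynomial.eval (fun _ : τ => (0 : R))).comp (sM τ σ) =
            σ.comp (MvPolynomial.eval (fun _ => 0)) := by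
          apply MvPolynomial.ringHom_ext
          · intro r
            simp [sM]
          · intro i
            simp [sM]
        exact DFunLike.congr_fun h3 x
      · ext i j
        show MvPolynomial.eval _ (MvPolynomial.C (b i j)) = b i j
        rw [MvPolynomial.eval_C]
    exact hC.base.of_injective _ _ (Subgroup.inclusion hle) (Subgroup.inclusion_injective hle) h1

end mv

section graded

open DirectSum

variable {A D : Type} [CommRing A] [Field D] (𝒜 : ℕ → AddSubgroup A) [GradedRing 𝒜]
  (θ : A →+* D) {σ : A →+* A} {b : Matrix ι ι A} {σD : D →+* D}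

/-- **graded rings** -/
theorem main_graded [Nonempty ι] (hC : ClosedE C) (hS : HasSolvable C)
    (hθ : Function.Injective θ) (hσ : ∀ x, θ (σ x) = σD (θ x))
    (hσg : ∀ n, ∀ x ∈ 𝒜 n, σ x ∈ 𝒜 n) (hb : ∀ i j, b i j ∈ 𝒜 0) (h : Herm σD (b.map θ))
    (han : An σD (b.map θ)) (h2 : (2 : D) ≠ 0)
    (G : Subgroup (Matrix (Ix ι) (Ix ι) A)ˣ) (hG : G ≤ UG σ b)
    (hCG : C ↥(G.map (mp (GradedRing.projZeroRingHom 𝒜)))) : C ↥G := by
  refine main_embed hC hS h han h2 (grd 𝒜 θ) (grd_injective 𝒜 θ hθ) ?_ ?_ G hG ?_
  · intro x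
    have h1 : ((grd 𝒜 θ).comp σ).toAddMonoidHom =
        ((Polynomial.mapRingHom σD).comp (grd 𝒜 θ)).toAddMonoidHom := by
      ext1 a
      induction a using DirectSum.Decomposition.inductionOn 𝒜 with
      | zero => rw [map_zero, map_zero]
      | homogeneous a =>
        rename_i n
        show grd 𝒜 θ (σ (a : A)) = Polynomial.mapRingHom σD (grd 𝒜 θ (a : A))
        have e1 : grd 𝒜 θ (σ (a : A)) = Polynomial.monomial n (θ (σ (a : A))) :=
          grd_coe 𝒜 θ n ⟨σ (a : A), hσg n a a.2⟩
        rw [e1, grd_coe, hσ, Polynomial.coe_mapRingHom, Polynomial.map_monomial]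
      | add a b ha hb => rw [map_add, map_add, ha, hb]
    exact DFunLike.congr_fun h1 x
  · ext1 i j
    show grd 𝒜 θ (b i j) = Polynomial.C (θ (b i j))
    have e1 := grd_coe 𝒜 θ 0 ⟨b i j, hb i j⟩
    rw [show grd 𝒜 θ (b i j) = Polynomial.monomial 0 (θ (b i j)) from e1,
      Polynomial.monomial_zero_left]
  · rw [grd_zero, mp_comp, ← Subgroup.map_map]
    exact C_map hC _ (mp_injective _ hθ) _ hCG

end graded

end thms

end Pool.Agent.R933.Un
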