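import Pool.Agent.R933.Un.Bas

/-!
# Isometries over a polynomial ring
-/

set_option autoImplicit false
set_option linter.unusedSectionVars false
set_option linter.unusedSimpArgs false

namespace Pool.Agent.R933.Un

open Polynomial

section pol

variable {ι K : Type} [Fintype ι] [DecidableEq ι] [Field K] {σ : K →+* K} {b : Matrix ι ι K}

/-- the involution on polynomials -/
noncomputable def sT (σ : K →+* K) : K[X] →+* K[X] := Polynomial.mapRingHom σ

/-- the form over the polynomials -/
noncomputable def bT (b : Matrix ι ι K) : Matrix ι ι K[X] := b.map (C : K →+* K[X])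

theorem sT_coeff (p : K[X]) (n : ℕ) : (sT σ p).coeff n = σ (p.coeff n) := by
  unfold sT
  rw [coe_mapRingHom, coeff_map]

theorem sT_C (a : K) : sT σ (C a) = C (σ a) := by
  unfold sT
  rw [coe_mapRingHom, map_C]

theorem sT_deg (p : K[X]) : (sT σ p).natDegree = p.natDegree := by
  unfold sT
  rw [coe_mapRingHom]
  exact natDegree_map σ

theorem hermT (h : Herm σ b) : Herm (sT σ) (bT b) where
  inv p := by
    ext n
    rw [sT_coeff, sT_coeff, h.inv]
  sym i j := by
    show sT σ (C (b i j)) = C (b j i)
    rw [sT_C, h.sym]

/-- anisotropic forms -/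
def An {R : Type} [CommRing R] (σ : R →+* R) (b : Matrix ι ι R) : Prop :=
  ∀ y : ι → R, h0 σ b y y = 0 → ∀ i, y i = 0

theorem h0_deg {y w : ι → K[X]} {m n : ℕ} (hy : ∀ i, (y i).natDegree ≤ m)
    (hw : ∀ i, (w i).natDegree ≤ n) : (h0 (sT σ) (bT b) y w).natDegree ≤ m + n ∧
    (h0 (sT σ) (bT b) y w).coeff (m + n) =
      h0 σ b (fun i => (y i).coeff m) (fun i => (w i).coeff n) := by
  have hd : ∀ i j, (sT σ (y i) * bT b i j).natDegree ≤ m := by
    intro i j
    refine (natDegree_mul_C_le _ _).trans ?_
    rw [sT_deg]
    exact hy i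
  constructor
  · apply natDegree_sum_le_of_forall_le
    intro i _
    apply natDegree_sum_le_of_forall_le
    intro j _
    exact natDegree_mul_le_of_le (hd i j) (hw j)
  · unfold h0
    rw [finsetSum_coeff]
    apply Finset.sum_congr rfl
    intro i _
    rw [finsetSum_coeff]
    apply Finset.sum_congr rfl
    intro j _
    rw [coeff_mul_add_eq_of_natDegree_le (hd i j) (hw j)]
    congr 1
    show (sT σ (y i) * C (b i j)).coeff m = _
    rw [coeff_mul_C, sT_coeff]

theorem exists_lead {y : ι → K[X]} (hy : ∃ i, y i ≠ 0) :
    ∃ D : ℕ, (∀ i, (y i).natDegree ≤ D) ∧ ∃ i, (y i).coeff D ≠ 0 := by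
  obtain ⟨i1, hi1⟩ := hy
  obtain ⟨i0, -, hi0⟩ := Finset.exists_max_image Finset.univ (fun i => (y i).natDegree)
    ⟨i1, Finset.mem_univ _⟩
  refine ⟨(y i0).natDegree, fun i => hi0 i (Finset.mem_univ _), ?_⟩
  by_cases h : y i0 = 0
  · refine ⟨i1, ?_⟩
    have h1 := hi0 i1 (Finset.mem_univ _)
    simp only [h, natDegree_zero, nonpos_iff_eq_zero] at h1
    rw [h, natDegree_zero, ← h1]
    exact leadingCoeff_ne_zero.2 hi1
  · exact ⟨i0, leadingCoeff_ne_zero.2 h⟩

theorem h0_lead (han : An σ b) {y : ι → K[X]} {D : ℕ} (hD : ∀ i, (y i).natDegree ≤ D)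
    (hc : ∃ i, (y i).coeff D ≠ 0) : (h0 (sT σ) (bT b) y y).coeff (D + D) ≠ 0 := by
  rw [(h0_deg hD hD).2]
  intro h
  obtain ⟨i, hi⟩ := hc
  exact hi (han _ h i)

theorem anT (han : An σ b) : An (sT σ) (bT b) := by
  intro y hy
  by_contra hne
  push Not at hne
  obtain ⟨D, hD, hc⟩ := exists_lead hne
  apply h0_lead han hD hc
  rw [hy, coeff_zero]

theorem const_of_h0 (han : An σ b) {y : ι → K[X]} {c : K} (hy : h0 (sT σ) (bT b) y y = C c)
    (i : ι) : y i = C ((y i).coeff 0) := by
  by_cases hne : ∃ i, y i ≠ 0
  · obtain ⟨D, hD, hc⟩ := exists_lead hne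
    have h1 := h0_lead han hD hc
    rw [hy, coeff_C] at h1
    have h2 : D = 0 := by
      by_contra hD0
      rw [if_neg (by omega)] at h1
      exact h1 rfl
    apply eq_C_of_natDegree_eq_zero
    have := hD i
    omega
  · push Not at hne
    rw [hne i]
    simp

theorem const_of_mul {p q : K[X]} (h : p * q = 1) : p = C (p.coeff 0) ∧ q = C (q.coeff 0) ∧
    p.coeff 0 * q.coeff 0 = 1 := by
  have hp : p ≠ 0 := by
    rintro rfl
    simp at h
  have hq : q ≠ 0 := by
    rintro rfl
    simp at h
  have h1 := natDegree_mul hp hq
  rw [h, natDegree_one] at h1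
  refine ⟨eq_C_of_natDegree_eq_zero (by omega), eq_C_of_natDegree_eq_zero (by omega), ?_⟩
  have h2 := congrArg (fun p : K[X] => p.coeff 0) h
  simp only [mul_coeff_zero, coeff_one_zero] at h2
  exact h2

/-- block diagonal matrices -/
noncomputable def DD (A B : K) (Y : ι → ι → K) : Matrix (Ix ι) (Ix ι) K[X] := fun i j =>
  match i, j with
  | none, none => C A
  | some none, some none => C B
  | some (some i), some (some j) => C (Y i j)
  | _, _ => 0

/-- **elements that fix an isotropic line** -/
theorem base (h : Herm σ b) (han : An σ b) {g : (Matrix (Ix ι) (Ix ι) K[X])ˣ}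
    (hg : g ∈ UG (sT σ) (bT b)) (h0' : g.val (some none) none = 0) :
    ∃ (w : ι → K[X]) (z : K[X]) (hz : Cd (sT σ) (bT b) w z) (A B : K) (Y : ι → ι → K),
      ((Ei (hermT h) w z hz)⁻¹ * g).val = DD A B Y ∧ g.val none none = C A ∧
      g.val (some none) (some none) = C B ∧
      (∀ i j, g.val (some (some i)) (some (some j)) = C (Y i j)) ∧
      (∀ i, g.val (some (some i)) (some none) = w i * C B) ∧
      g.val none (some none) = z * C B := by
  have hy : ∀ i, g.val (some (some i)) none = 0 := by
    apply anT han
    have h1 := hf_col hg none none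
    unfold hf at h1
    beta_reduce at h1
    rw [h0', map_zero, mul_zero, zero_mul, zero_add, zero_add] at h1
    exact h1
  have hAB : sT σ (g.val none none) * g.val (some none) (some none) = 1 := by
    have h1 := hf_col hg none (some none)
    unfold hf at h1
    simp only [h0', hy, map_zero, zero_mul, add_zero] at h1
    have h2 := h0_zero_left (σ := sT σ) (b := bT b)
      (fun i => g.val (some (some i)) (some none))
    rw [h2, add_zero] at h1
    exact h1
  obtain ⟨a1, a2, a3⟩ := const_of_mul hAB
  set B : K := (g.val (some none) (some none)).coeff 0 with hB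
  set A : K := (g.val none none).coeff 0 with hA
  have hAC : g.val none none = C A := by
    apply eq_C_of_natDegree_eq_zero
    rw [← sT_deg (σ := σ), a1, natDegree_C]
  have hB0 : B ≠ 0 := right_ne_zero_of_mul_eq_one a3
  have hfs : ∀ j, g.val (some none) (some (some j)) = 0 := by
    intro j
    have h1 := hf_col hg none (some (some j))
    unfold hf at h1
    simp only [h0', hy, map_zero, zero_mul, add_zero] at h1
    have h2 := h0_zero_left (σ := sT σ) (b := bT b)
      (fun i => g.val (some (some i)) (some (some j)))
    rw [h2, add_zero] at h1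
    have h3 : sT σ (g.val none none) * g.val (some none) (some (some j)) = 0 := h1
    rcases mul_eq_zero.1 h3 with h4 | h4
    · rw [h4, zero_mul] at hAB
      exact absurd hAB zero_ne_one
    · exact h4
  have hYC : ∀ j i, g.val (some (some i)) (some (some j)) =
      C ((g.val (some (some i)) (some (some j))).coeff 0) := by
    intro j i
    apply const_of_h0 han (y := fun i => g.val (some (some i)) (some (some j))) (c := b j j)
    have h1 := hf_col hg (some (some j)) (some (some j))
    unfold hf at h1
    simp only [hfs, map_zero, mul_zero, zero_mul, zero_add] at h1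
    exact h1
  set u : K[X] := C B⁻¹ with hu
  have hBu : C B * u = 1 := by
    rw [hu, ← C_mul, mul_inv_cancel₀ hB0, C_1]
  have hsBu : sT σ (C B) * sT σ u = 1 := by
    rw [← map_mul, hBu, map_one]
  set w' : ι → K[X] := fun i => g.val (some (some i)) (some none) with hw'
  set P : K[X] := g.val none (some none) with hP
  have hff : sT σ P * C B + sT σ (C B) * P + h0 (sT σ) (bT b) w' w' = 0 := by
    have h1 := hf_col hg (some none) (some none)
    unfold hf at h1
    beta_reduce at h1
    rw [a2] at h1
    exact h1
  have hz : Cd (sT σ) (bT b) (fun i => w' i * u) (P * u) := by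
    unfold Cd
    rw [h0_smul_left, h0_smul_right, map_mul]
    linear_combination (sT σ u * u) * hff - (sT σ P * sT σ u) * hBu - (P * u) * hsBu
  refine ⟨fun i => w' i * u, P * u, hz, A, B,
    fun i j => (g.val (some (some i)) (some (some j))).coeff 0, ?_, hAC, a2,
    fun i j => hYC j i, fun i => ?_, ?_⟩
  · set g1 := (Ei (hermT h) (fun i => w' i * u) (P * u) hz)⁻¹ * g with hg1
    have hmem : g1 ∈ UG (sT σ) (bT b) := (UG _ _).mul_mem ((UG _ _).inv_mem (Ei_mem _ _ _ _)) hg
    have hcol : ∀ j i, g1.val i j = LL (sT σ) (bT b) (fun i => - (w' i * u)) (sT σ (P * u))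
        (fun l => g.val l j) i := by
      intro j i
      rw [← EM_mulVec]
      rfl
    have c1 : g1.val none none = C A := by
      rw [hcol, LL_e]
      simp only [hy, h0', mul_zero, add_zero]
      rw [h0_zero_right, sub_zero, hAC]
    have c2 : g1.val (some none) none = 0 := by
      rw [hcol, LL_f, h0']
    have c3 : ∀ i, g1.val (some (some i)) none = 0 := by
      intro i
      rw [hcol, LL_y, h0', hy, mul_zero, add_zero]
    have c4 : g1.val none (some none) = 0 := by
      rw [hcol, LL_e]
      show P - h0 (sT σ) (bT b) (fun i => - (w' i * u)) w' + sT σ (P * u) *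
        g.val (some none) (some none) = 0
      rw [a2, h0_neg_left, h0_smul_left, map_mul]
      linear_combination (sT σ u) * hff - P * hsBu
    have c5 : g1.val (some none) (some none) = C B := by
      rw [hcol, LL_f, a2]
    have c6 : ∀ i, g1.val (some (some i)) (some none) = 0 := by
      intro i
      rw [hcol, LL_y, a2]
      show w' i + -(w' i * u) * C B = 0
      linear_combination (- w' i) * hBu
    have c7 : ∀ j, g1.val (some none) (some (some j)) = 0 := by
      intro j
      rw [hcol, LL_f, hfs]
    have c8 : ∀ i j, g1.val (some (some i)) (some (some j)) =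
        C ((g.val (some (some i)) (some (some j))).coeff 0) := by
      intro i j
      rw [hcol, LL_y, hfs, mul_zero, add_zero]
      exact hYC j i
    have c9 : ∀ j, g1.val none (some (some j)) = 0 := by
      intro j
      have h1 := hf_col hmem (some (some j)) (some none)
      unfold hf at h1
      simp only [c4, c5, c6, c7, map_zero, mul_zero, zero_mul, add_zero] at h1
      rw [h0_zero_right, add_zero] at h1
      have h2 : sT σ (g1.val none (some (some j))) * C B = 0 := h1
      have h3 : sT σ (g1.val none (some (some j))) = 0 := by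
        rcases mul_eq_zero.1 h2 with h4 | h4
        · exact h4
        · exact absurd (C_eq_zero.1 h4) hB0
      have h4 := (hermT h).inv (g1.val none (some (some j)))
      rw [h3, map_zero] at h4
      exact h4.symm
    ext i j
    match i, j with
    | none, none => rw [c1]; rfl
    | none, some none => rw [c4]; rfl
    | none, some (some j) => rw [c9]; rfl
    | some none, none => rw [c2]; rfl
    | some none, some none => rw [c5]; rfl
    | some none, some (some j) => rw [c7]; rfl
    | some (some i), none => rw [c3]; rfl
    | some (some i), some none => rw [c6]; rfl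
    | some (some i), some (some j) => rw [c8]; rfl
  · show w' i = w' i * u * C B
    linear_combination (- w' i) * hBu
  · show P = P * u * C B
    linear_combination (- P) * hBu

end pol

end Pool.Agent.R933.Un
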